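import Pool.Agent.Lib_helper16.NH.Col

/-!
# Asymptotics
-/

set_option autoImplicit false
set_option linter.unusedSectionVars false

namespace Pool.Agent.NH

open Finset Filter Topology Pool.Agent.DR

theorem ev {a : ℝ} (ha : 0 < a) (k : ℕ) {c : ℝ} (hc : 0 < c) :
    ∀ᶠ x : ℝ in atTop, x ^ k * Real.exp (-(a * x)) ≤ c := by
  have h1 : Tendsto (fun x : ℝ => a * x) atTop atTop := tendsto_id.const_mul_atTop ha
  have h2 := (Real.tendsto_pow_mul_exp_neg_atTop_nhds_zero k).comp h1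
  have h3 : (0 : ℝ) < c * a ^ k := by positivity
  filter_upwards [h2.eventually (gt_mem_nhds h3)] with x hx
  simp only [Function.comp_apply] at hx
  rw [mul_pow] at hx
  have h4 : 0 < a ^ k := by positivity
  have h5 : a ^ k * (x ^ k * Real.exp (-(a * x))) < a ^ k * c := by
    calc a ^ k * (x ^ k * Real.exp (-(a * x))) = a ^ k * x ^ k * Real.exp (-(a * x)) := by ring
      _ < c * a ^ k := hx
      _ = a ^ k * c := by ring
  exact (lt_of_mul_lt_mul_left h5 h4.le).le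

theorem sum_sqrt (m : ℕ) : 2 / 3 * (m * Real.sqrt m) - Real.sqrt m ≤
    ∑ s ∈ range m, Real.sqrt s := by
  induction m with
  | zero => simp
  | succ m ih =>
    rw [Finset.sum_range_succ]
    set a := Real.sqrt m with ha
    set b := Real.sqrt ((m + 1 : ℕ) : ℝ) with hb
    have ha0 : 0 ≤ a := Real.sqrt_nonneg _
    have hm0 : (0 : ℝ) ≤ m := Nat.cast_nonneg m
    have ha2 : a ^ 2 = m := Real.sq_sqrt hm0
    have hb2 : b ^ 2 = m + 1 := by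
      rw [hb, Real.sq_sqrt (by positivity)]
      push_cast
      ring
    have hab : a ≤ b := Real.sqrt_le_sqrt (by push_cast; linarith)
    have hb0 : 0 < b := Real.sqrt_pos.2 (by positivity)
    -- `2/3 (b³ - a³) ≤ b`
    have key : 2 / 3 * (b ^ 3 - a ^ 3) ≤ b := by
      have h1 : (b - a) * (a + b) = 1 := by nlinarith
      have h2 : 0 < a + b := by linarith
      have h3 : 2 / 3 * (b ^ 3 - a ^ 3) * (a + b) ≤ b * (a + b) := by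
        have : 2 / 3 * (b ^ 3 - a ^ 3) * (a + b) =
            2 / 3 * (b ^ 2 + a * b + a ^ 2) * ((b - a) * (a + b)) := by ring
        rw [this, h1]
        nlinarith
      exact le_of_mul_le_mul_right h3 h2
    have e1 : ((m + 1 : ℕ) : ℝ) * b = b ^ 3 := by
      push_cast
      rw [← hb2]
      ring
    have e2 : (m : ℝ) * a = a ^ 3 := by
      rw [← ha2]
      ring
    rw [e1]
    rw [e2] at ih
    linarith

theorem sum_gam {ξ L : ℝ} (h0 : 0 ≤ ξ) (h1 : ξ ≤ 1 / 4) (hL : 0 ≤ L) {m : ℕ} (hLm : L ≤ m) :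
    (4 / 3 - 6 * ξ) * (Real.sqrt L * (m * Real.sqrt m)) - 2 * m ≤
      ∑ s ∈ range m, gam ξ L m s := by
  have hm0 : (0 : ℝ) ≤ m := Nat.cast_nonneg m
  have e : ∑ s ∈ range m, gam ξ L m s = (2 - 3 * ξ) * Real.sqrt L * (∑ s ∈ range m, Real.sqrt s) -
      4 * ξ * (Real.sqrt L * (m * Real.sqrt m)) := by
    unfold gam
    rw [Finset.sum_sub_distrib, Finset.sum_const, Finset.card_range, nsmul_eq_mul,
      Real.sqrt_mul hL, Finset.mul_sum]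
    congr 1
    · refine Finset.sum_congr rfl fun s _ => ?_
      rw [Real.sqrt_mul hL]
      ring
    · ring
  rw [e]
  have h2 := mul_le_mul_of_nonneg_left (sum_sqrt m)
    (mul_nonneg (by linarith : (0 : ℝ) ≤ 2 - 3 * ξ) (Real.sqrt_nonneg L))
  have h3 : Real.sqrt L * Real.sqrt m ≤ m := by
    rw [← Real.sqrt_mul hL]
    calc Real.sqrt (L * m) ≤ Real.sqrt ((m : ℝ) ^ 2) := by
          refine Real.sqrt_le_sqrt ?_
          nlinarith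
      _ = m := Real.sqrt_sq hm0
  have h4 : 0 ≤ Real.sqrt L * (m * Real.sqrt m) := by positivity
  have h5 : (2 - 3 * ξ) * (Real.sqrt L * Real.sqrt m) ≤ 2 * m := by
    have := Real.sqrt_nonneg L
    have := Real.sqrt_nonneg (m : ℝ)
    have h6 : 0 ≤ Real.sqrt L * Real.sqrt m := by positivity
    nlinarith
  nlinarith

/-- the number of points of the sets -/
theorem final_num {c₀ ξ η L : ℝ} {m : ℕ} (hc0 : 1 ≤ c₀) (hη0 : 0 < η) (hη1 : η ≤ 1)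
    (hL1 : 1 ≤ L) (hm1 : c₀ / η ^ 2 * L ≤ m) (hm2 : (m : ℝ) ≤ c₀ / η ^ 2 * L + 1)
    (hfin : 8 < (4 / 3 - 6 * ξ - Real.sqrt c₀) * Real.sqrt L)
    (h : (4 / 3 - 6 * ξ) * (Real.sqrt L * (m * Real.sqrt m)) ≤ η * m ^ 2 + 6 * m) : False := by
  have hη2 : 0 < η ^ 2 := by positivity
  have hm0 : (1 : ℝ) ≤ m := by
    refine le_trans ?_ hm1
    have : 1 ≤ c₀ / η ^ 2 := by
      rw [le_div_iff₀ hη2]
      nlinarith
    nlinarith
  set q := Real.sqrt (m : ℝ) with hq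
  have hq1 : 1 ≤ q := by
    rw [hq]
    exact Real.one_le_sqrt.2 hm0
  have hq2 : q ^ 2 = m := Real.sq_sqrt (by linarith)
  have hqη : η * q ≤ Real.sqrt c₀ * Real.sqrt L + 1 := by
    rw [← Real.sqrt_mul (by linarith)]
    have h1 : (η * q) ^ 2 ≤ c₀ * L + 1 := by
      rw [mul_pow, hq2]
      calc η ^ 2 * m ≤ η ^ 2 * (c₀ / η ^ 2 * L + 1) := mul_le_mul_of_nonneg_left hm2 hη2.le
        _ = c₀ * L + η ^ 2 := by field_simp
        _ ≤ c₀ * L + 1 := by nlinarith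
    have h2 : 0 ≤ Real.sqrt (c₀ * L) := Real.sqrt_nonneg _
    have h3 : Real.sqrt (c₀ * L) ^ 2 = c₀ * L := Real.sq_sqrt (by positivity)
    nlinarith [mul_pos hη0 (by linarith : 0 < q)]
  have h3 : (m : ℝ) * q = q ^ 3 := by rw [← hq2]; ring
  rw [h3, ← hq2] at h
  have h4 : q ^ 3 * ((4 / 3 - 6 * ξ) * Real.sqrt L) ≤ q ^ 3 * (η * q + 6) := by
    have : 6 * q ^ 2 ≤ 6 * q ^ 3 := by nlinarith [sq_nonneg q]
    nlinarith
  have h5 := le_of_mul_le_mul_left h4 (by positivity)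
  nlinarith

theorem scale_num {M x C L c b : ℝ} {k : ℕ} (hM : 0 ≤ M) (hMC : M ≤ C * L) (hC : 0 < C)
    (hx : 0 ≤ x) (hb : 0 < b) (h : L ^ k * x ≤ c / (b * C ^ k)) : b * (M ^ k * x) ≤ c := by
  have hCk : 0 < b * C ^ k := by positivity
  rw [le_div_iff₀ hCk] at h
  have h1 : M ^ k ≤ (C * L) ^ k := pow_le_pow_left₀ hM hMC k
  have h2 : b * (M ^ k * x) ≤ b * ((C * L) ^ k * x) :=
    mul_le_mul_of_nonneg_left (mul_le_mul_of_nonneg_right h1 hx) hb.le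
  refine h2.trans (le_trans (le_of_eq ?_) h)
  rw [mul_pow]
  ring

theorem loss_num {M κ ω : ℝ} (hM : 1 ≤ M) (hκ : 0 ≤ κ) (h1 : 280 * (M ^ 4 * κ) ≤ 1)
    (h2 : 168 * (M ^ 3 * ω) ≤ 1) :
    4 * (7 * M ^ 2) * ((2 * (2 * M) + 1) * κ + 3 * ω) ≤ 1 / M := by
  have hM0 : 0 < M := by linarith
  rw [le_div_iff₀ hM0]
  have h3 : M ^ 3 ≤ M ^ 4 := pow_le_pow_right₀ hM (by norm_num)
  have h4 : M ^ 3 * κ ≤ M ^ 4 * κ := mul_le_mul_of_nonneg_right h3 hκ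
  have h6 : 4 * (7 * M ^ 2) * ((2 * (2 * M) + 1) * κ + 3 * ω) * M =
      112 * (M ^ 4 * κ) + 28 * (M ^ 3 * κ) + 84 * (M ^ 3 * ω) := by ring
  rw [h6]
  linarith only [h4, h1, h2]

theorem P_num {M y : ℝ} (h : 7 * (M ^ 2 * Real.exp (-y)) ≤ 1) : 7 * M ^ 2 ≤ Real.exp y := by
  have h1 : 7 * M ^ 2 * Real.exp (-y) ≤ 1 := by rw [mul_assoc]; exact h
  rw [Real.exp_neg, ← div_eq_mul_inv, div_le_one (Real.exp_pos _)] at h1
  exact h1

theorem cond_num {κ ω η ξ t : ℝ} (h1 : κ ≤ ξ ^ 2 / 320) (h2 : ω ≤ ξ ^ 2 / (320 * 37))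
    (h3 : 324 * η + 64 * (η ^ 2 / ξ ^ 2) ≤ ξ ^ 2 / 160) (h4 : t ^ 2 ≤ η ^ 2 / ξ ^ 2) :
    (κ + ω) + 2 * (6 * (3 * η) + 2 * ω) + 16 * (6 * (3 * η) + 2 * ω) + 64 * t ^ 2 ≤
      ξ ^ 2 / 80 := by
  rw [le_div_iff₀ (by norm_num)] at h2
  linarith only [h1, h2, h3, h4]

theorem th_num {c₀ ξ η L M J : ℝ} (hc0 : 1 ≤ c₀) (hξ0 : 0 < ξ) (hη2 : 0 < η ^ 2)
    (hL0 : 0 < L) (hm1 : c₀ / η ^ 2 * L ≤ M) (hJ0 : 0 < J) (hJ : ξ ^ 2 * M ≤ J) :
    (1 - ξ) * L / J ≤ η ^ 2 / ξ ^ 2 := by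
  have h3 : 0 < ξ ^ 2 := by positivity
  have hη : η ≠ 0 := by
    rintro rfl
    norm_num at hη2
  rw [div_le_div_iff₀ hJ0 h3]
  have h1 : L * c₀ ≤ η ^ 2 * M := by
    calc L * c₀ = η ^ 2 * (c₀ / η ^ 2 * L) := by field_simp
      _ ≤ η ^ 2 * M := mul_le_mul_of_nonneg_left hm1 hη2.le
  have h2 : η ^ 2 * (ξ ^ 2 * M) ≤ η ^ 2 * J := mul_le_mul_of_nonneg_left hJ hη2.le
  have h4 : ξ ^ 2 * (L * c₀) ≤ ξ ^ 2 * (η ^ 2 * M) := mul_le_mul_of_nonneg_left h1 h3.le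
  have h5 : (1 - ξ) * L ≤ L * c₀ := by nlinarith
  have h6 : ξ ^ 2 * ((1 - ξ) * L) ≤ ξ ^ 2 * (L * c₀) := mul_le_mul_of_nonneg_left h5 h3.le
  linarith only [h2, h4, h6]

theorem good_of {n m : ℕ} [Nonempty (Fin n)] {c₀ ξ η C L : ℝ} (hc0 : 1 ≤ c₀) (hξ0 : 0 < ξ)
    (hξ1 : ξ ≤ 1 / 4) (hη0 : 0 < η) (hη1 : η ≤ ξ / 4)
    (hηξ : 324 * η + 64 * (η ^ 2 / ξ ^ 2) ≤ ξ ^ 2 / 160) (hC : 0 < C)
    (e1 : L ^ 2 * Real.exp (-(ξ / 4 * L)) ≤ η ^ 2 / (10 * C ^ 2))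
    (e2 : L ^ 0 * Real.exp (-(ξ / 4 * L)) ≤ ξ ^ 2 / 320)
    (e2' : L ^ 0 * Real.exp (-(ξ ^ 2 / 16 * L)) ≤ ξ ^ 2 / (320 * 37))
    (e3 : L ^ 2 * Real.exp (-(ξ ^ 2 / 80 * L)) ≤ 1 / (7 * C ^ 2))
    (e4 : L ^ 4 * Real.exp (-(ξ / 4 * L)) ≤ 1 / (280 * C ^ 4))
    (e4' : L ^ 3 * Real.exp (-(ξ ^ 2 / 16 * L)) ≤ 1 / (168 * C ^ 3))
    (hL1 : 1 ≤ L) (hLξ : 1 / ξ ^ 2 ≤ L) (hlog : Real.log (Fintype.card (Fin n)) = L)
    (hm1 : c₀ / η ^ 2 * L ≤ m) (hmC : (m : ℝ) ≤ C * L) (hLm : L ≤ m) (hm2' : 2 ≤ m)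
    {A : Fin n → Fin n → ℝ} (hA : Col A) (hH : Hyp A m η) :
    Good A ξ (3 * η) ⌈ξ ^ 2 * m⌉₊ m := by
  have hη2 : 0 < η ^ 2 := by positivity
  have hξ2 : 0 < ξ ^ 2 := by positivity
  have hm16 : (2 : ℝ) ≤ m := by exact_mod_cast hm2'
  have hmpos : (0 : ℝ) < m := by linarith only [hm16]
  have hL0 : 0 < L := by linarith only [hL1]
  have hξm : 1 ≤ ξ ^ 2 * m := by
    rw [div_le_iff₀ hξ2] at hLξ
    have := mul_le_mul_of_nonneg_left hLm hξ2.le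
    linarith only [this, hLξ]
  have hj1 : ξ ^ 2 * m ≤ ⌈ξ ^ 2 * (m : ℝ)⌉₊ := Nat.le_ceil _
  have hj2 : (⌈ξ ^ 2 * (m : ℝ)⌉₊ : ℝ) ≤ ξ ^ 2 * m + 1 :=
    (Nat.ceil_lt_add_one (by positivity)).le
  generalize ⌈ξ ^ 2 * (m : ℝ)⌉₊ = j₀ at hj1 hj2 ⊢
  have hj0pos : (0 : ℝ) < j₀ := by linarith only [hj1, hξm]
  have hξsq : ξ ^ 2 ≤ 1 / 16 := by nlinarith only [hξ0, hξ1]
  have hth : th ξ L j₀ ^ 2 ≤ η ^ 2 / ξ ^ 2 := by
    rw [th_sq (by linarith only [hξ1]) hL0.le]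
    exact th_num hc0 hξ0 hη2 hL0 hm1 hj0pos hj1
  have hspr : Spr A (Real.exp (-(ξ / 4 * L))) (3 * η) := by
    refine spr_of_hyp hA hm2' hη0 (by linarith only [hη1, hξ1]) hH (Real.exp_pos _) ?_
    have := scale_num hmpos.le hmC hC (Real.exp_pos (-(ξ / 4 * L))).le
      (by norm_num : (0 : ℝ) < 10) e1
    rw [mul_assoc]
    exact this
  rw [pow_zero, one_mul] at e2 e2'
  have hcond := cond_num e2 e2' hηξ hth
  have hP := P_num (scale_num hmpos.le hmC hC (Real.exp_pos (-(ξ ^ 2 / 80 * L))).le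
      (by norm_num : (0 : ℝ) < 7) e3)
  have hloss := loss_num (by linarith only [hm16]) (Real.exp_pos (-(ξ / 4 * L))).le
    (scale_num hmpos.le hmC hC (Real.exp_pos (-(ξ / 4 * L))).le
      (by norm_num : (0 : ℝ) < 280) e4)
    (scale_num hmpos.le hmC hC (Real.exp_pos (-(ξ ^ 2 / 16 * L))).le
      (by norm_num : (0 : ℝ) < 168) e4')
  have hθ1 : th ξ L j₀ ≤ 1 / 4 := by
    have h1 : η ^ 2 / ξ ^ 2 ≤ (1 / 4) ^ 2 := by
      rw [div_le_iff₀ hξ2]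
      nlinarith only [hη0, hη1, hξ0]
    exact (abs_le_of_sq_le_sq' (hth.trans h1) (by norm_num)).2
  have hjm : j₀ ≤ m := by
    have : (j₀ : ℝ) ≤ m := by nlinarith only [hj2, hξsq, hm16]
    exact_mod_cast this
  have hj1' : 1 ≤ j₀ := by exact_mod_cast hj0pos
  have hjξ : (j₀ : ℝ) ≤ 3 * ξ ^ 2 * m := by linarith only [hj2, hξm]
  subst hlog
  exact ⟨hA, hξ0, hξ1, hL0, hLm, hj1', hjm, hjξ, hspr, hcond, hθ1, hP, hloss⟩

theorem large {c₀ ξ η : ℝ} (hc0 : 1 ≤ c₀) (hξ0 : 0 < ξ) (hξ1 : ξ ≤ 1 / 4)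
    (hcξ : 6 * ξ + Real.sqrt c₀ < 4 / 3) (hη0 : 0 < η) (hη1 : η ≤ ξ / 4)
    (hηξ : 324 * η + 64 * (η ^ 2 / ξ ^ 2) ≤ ξ ^ 2 / 160) :
    ∀ᶠ L : ℝ in atTop, ∀ n : ℕ, Real.log n = L → ∀ A : Fin n → Fin n → ℝ, Col A →
      ¬ Hyp A ⌈c₀ / η ^ 2 * L⌉₊ η := by
  have hη2 : 0 < η ^ 2 := by positivity
  obtain ⟨C, hC⟩ : ∃ C : ℝ, C = c₀ / η ^ 2 + 1 := ⟨_, rfl⟩
  have hCpos : 0 < C := by
    have : 0 ≤ c₀ / η ^ 2 := by positivity
    linarith only [this, hC]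
  have hgap : 0 < 4 / 3 - 6 * ξ - Real.sqrt c₀ := by linarith only [hcξ]
  have e6 : ∀ᶠ L : ℝ in atTop, 8 < (4 / 3 - 6 * ξ - Real.sqrt c₀) * Real.sqrt L :=
    (Real.tendsto_sqrt_atTop.const_mul_atTop hgap).eventually_gt_atTop 8
  filter_upwards [
    ev (a := ξ / 4) (by linarith only [hξ0]) 2 (c := η ^ 2 / (10 * C ^ 2)) (by positivity),
    ev (a := ξ / 4) (by linarith only [hξ0]) 0 (c := ξ ^ 2 / 320) (by positivity),
    ev (a := ξ ^ 2 / 16) (by positivity) 0 (c := ξ ^ 2 / (320 * 37)) (by positivity),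
    ev (a := ξ ^ 2 / 80) (by positivity) 2 (c := 1 / (7 * C ^ 2)) (by positivity),
    ev (a := ξ / 4) (by linarith only [hξ0]) 4 (c := 1 / (280 * C ^ 4)) (by positivity),
    ev (a := ξ ^ 2 / 16) (by positivity) 3 (c := 1 / (168 * C ^ 3)) (by positivity),
    e6, eventually_ge_atTop 1,
    eventually_ge_atTop (1 / ξ ^ 2)] with L e1 e2 e2' e3 e4 e4' e6 hL1 hLξ
  intro n hn A hA hH
  have hL0 : 0 < L := by linarith only [hL1]
  have hn1 : n ≠ 0 := by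
    rintro rfl
    rw [Nat.cast_zero, Real.log_zero] at hn
    linarith only [hn, hL0]
  have hne : Nonempty (Fin n) := Fin.pos_iff_nonempty.1 (Nat.pos_of_ne_zero hn1)
  have hcη : 1 ≤ c₀ / η ^ 2 := by
    rw [le_div_iff₀ hη2]
    nlinarith only [hη0, hη1, hξ1, hc0]
  have hcη' : 16 ≤ c₀ / η ^ 2 := by
    rw [le_div_iff₀ hη2]
    nlinarith only [hη0, hη1, hξ1, hc0]
  have hm1 : c₀ / η ^ 2 * L ≤ ⌈c₀ / η ^ 2 * L⌉₊ := Nat.le_ceil _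
  have hm2 : (⌈c₀ / η ^ 2 * L⌉₊ : ℝ) ≤ c₀ / η ^ 2 * L + 1 :=
    (Nat.ceil_lt_add_one (by positivity)).le
  generalize ⌈c₀ / η ^ 2 * L⌉₊ = m at hm1 hm2 hH
  have hmC : (m : ℝ) ≤ C * L := by
    rw [hC, add_mul, one_mul]
    linarith only [hm2, hL1]
  have h16 : 16 * L ≤ m := le_trans (mul_le_mul_of_nonneg_right hcη' hL0.le) hm1
  have hLm : L ≤ m := by linarith only [h16, hL0]
  have hm16 : (2 : ℝ) ≤ m := by linarith only [h16, hL1]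
  have hm2' : 2 ≤ m := by exact_mod_cast hm16
  have hlog : Real.log (Fintype.card (Fin n)) = L := by rw [Fintype.card_fin, hn]
  have g := good_of hc0 hξ0 hξ1 hη0 hη1 hηξ hCpos e1 e2 e2' e3 e4 e4' hL1 hLξ hlog hm1 hmC hLm hm2'
    hA hH
  obtain ⟨X, Y, hX, hY, hXY⟩ := two_sets g
  rw [hlog] at hXY
  have q1 := (abs_le.1 (hH X hX)).2
  have q2 := (abs_le.1 (hH Y hY)).1
  have hs := sum_gam hξ0.le hξ1 hL0.le hLm
  refine final_num (ξ := ξ) hc0 hη0 (by linarith only [hη1, hξ1]) hL1 hm1 hm2 e6 ?_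
  linarith only [hXY, q1, q2, hs, hm16]

theorem near_half {δ : ℝ} (hδ : 0 < δ) : ∃ α₀ : ℝ, α₀ < 1 / 2 ∧ ∀ α : ℝ, α₀ < α → α < 1 / 2 →
    ∀ᶠ n : ℕ in atTop, (16 / 9 - δ) / (1 - 2 * α) ^ 2 * Real.log n ≤ F n α := by
  set δ' : ℝ := min δ (7 / 9) with hδ'
  have hδ'0 : 0 < δ' := lt_min hδ (by norm_num)
  have hδ'1 : δ' ≤ 7 / 9 := min_le_right _ _
  have hδ'2 : δ' ≤ δ := min_le_left _ _
  set c₀ : ℝ := 16 / 9 - δ' with hc
  have hc0 : 1 ≤ c₀ := by rw [hc]; linarith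
  have hc1 : c₀ ≤ 2 := by rw [hc]; linarith
  have hsq : Real.sqrt c₀ < 4 / 3 := by
    rw [Real.sqrt_lt' (by norm_num), hc]
    linarith
  set ξ : ℝ := min (1 / 4) ((4 / 3 - Real.sqrt c₀) / 12) with hξ
  have hξ0 : 0 < ξ := lt_min (by norm_num) (by linarith)
  have hξ1 : ξ ≤ 1 / 4 := min_le_left _ _
  have hcξ : 6 * ξ + Real.sqrt c₀ < 4 / 3 := by
    have : ξ ≤ (4 / 3 - Real.sqrt c₀) / 12 := min_le_right _ _
    linarith
  set η₀ : ℝ := ξ ^ 4 / 100000 with hη₀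
  have hη₀0 : 0 < η₀ := by positivity
  have hξ2 : ξ ^ 2 ≤ 1 / 16 := by nlinarith
  have hη₀1 : η₀ ≤ ξ / 4 := by
    rw [hη₀]
    have h3 : ξ ^ 3 ≤ 1 := by
      have := pow_le_one₀ (n := 3) hξ0.le (by linarith : ξ ≤ 1)
      exact this
    have : ξ ^ 4 = ξ ^ 3 * ξ := by ring
    rw [this]
    nlinarith
  refine ⟨1 / 2 - η₀ / 2, by linarith, fun α h1 h2 => ?_⟩
  set η : ℝ := 1 - 2 * α with hη
  have hη0 : 0 < η := by rw [hη]; linarith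
  have hη1 : η ≤ η₀ := by rw [hη]; linarith
  have hηξ : 324 * η + 64 * (η ^ 2 / ξ ^ 2) ≤ ξ ^ 2 / 160 := by
    have a1 : η ^ 2 / ξ ^ 2 ≤ η := by
      rw [div_le_iff₀ (by positivity)]
      have : η ≤ ξ ^ 2 := by
        refine hη1.trans ?_
        rw [hη₀]
        have : ξ ^ 4 = ξ ^ 2 * ξ ^ 2 := by ring
        rw [this]
        nlinarith [sq_nonneg ξ]
      nlinarith
    have a2 : 388 * η ≤ ξ ^ 2 / 160 := by
      have : 388 * η₀ ≤ ξ ^ 2 / 160 := by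
        rw [hη₀]
        have : ξ ^ 4 = ξ ^ 2 * ξ ^ 2 := by ring
        rw [this]
        nlinarith [sq_nonneg ξ]
      linarith
    linarith
  have hl := large hc0 hξ0 hξ1 hcξ hη0 (hη1.trans hη₀1) hηξ
  have hlog : Tendsto (fun n : ℕ => Real.log (n : ℝ)) atTop atTop :=
    Real.tendsto_log_atTop.comp tendsto_natCast_atTop_atTop
  filter_upwards [hlog.eventually hl, hlog.eventually (eventually_ge_atTop 0)] with n hn hn0
  by_contra hcon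
  push Not at hcon
  obtain ⟨-, A, hB⟩ := F_mem n α
  have hη2 : 0 < η ^ 2 := by positivity
  have hle : (16 / 9 - δ) / η ^ 2 * Real.log n ≤ c₀ / η ^ 2 * Real.log n := by
    refine mul_le_mul_of_nonneg_right ?_ hn0
    refine div_le_div_of_nonneg_right ?_ hη2.le
    rw [hc]
    linarith
  have hF : F n α ≤ ⌈c₀ / η ^ 2 * Real.log n⌉₊ := by
    have h3 : (F n α : ℝ) ≤ ⌈c₀ / η ^ 2 * Real.log n⌉₊ :=
      (hcon.le.trans hle).trans (Nat.le_ceil _)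
    exact_mod_cast h3
  refine hn n rfl (mat A) (mat_col A) (hyp_of_bal A (fun X hX => hB X ?_) h2.le)
  rw [hX]
  exact hF

end Pool.Agent.NH
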