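import Pool.Agent.Lib_helper16.NH.Ind
import Pool.Agent.Lib_helper71.DR.Defs

/-!
# The matrix of a split
-/

set_option autoImplicit false
set_option linter.unusedSectionVars false

namespace Pool.Agent.NH

open Finset Pool.Agent.DR

/-- `1` for the pairs in `A`, `-1` for the others -/
noncomputable def mat {n : ℕ} (A : Finset (Finset (Fin n))) (v w : Fin n) : ℝ :=
  if v = w then 0 else if ({v, w} : Finset (Fin n)) ∈ A then 1 else -1

theorem mat_col {n : ℕ} (A : Finset (Finset (Fin n))) : Col (mat A) := by
  refine ⟨?_, ?_, ?_⟩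
  · intro v w
    unfold mat
    by_cases h : v = w
    · rw [if_pos h, if_pos h.symm]
    · rw [if_neg h, if_neg (Ne.symm h), Finset.pair_comm]
  · intro v
    simp [mat]
  · intro v w h
    unfold mat
    rw [if_neg h]
    split_ifs
    · exact Or.inl rfl
    · exact Or.inr rfl

theorem Q_mat {n : ℕ} (A : Finset (Finset (Fin n))) (X : Finset (Fin n)) :
    Q (mat A) X = 2 * ((((X.powersetCard 2).filter fun e => e ∈ A).card : ℝ) -
      (((X.powersetCard 2).filter fun e => e ∉ A).card : ℝ)) := by
  induction X using Finset.induction_on with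
  | empty =>
    have h : powersetCard 2 (∅ : Finset (Fin n)) = ∅ := by
      rw [Finset.powersetCard_eq_empty]
      simp
    simp [Q, h]
  | insert x X hx ih =>
    rw [Q_insert (mat_col A) hx, ih]
    have key : ∀ P : Finset (Fin n) → Prop, [DecidablePred P] →
        (((insert x X).powersetCard 2).filter P).card =
          ((X.powersetCard 2).filter P).card + (X.filter fun y => P {x, y}).card := by
      intro P _
      have e1 : ((powersetCard 1 X).image (insert x)).filter P =
          (X.filter fun y => P {x, y}).image (fun y => ({x, y} : Finset (Fin n))) := by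
        ext e
        simp only [Finset.mem_filter, Finset.mem_image, Finset.mem_powersetCard]
        constructor
        · rintro ⟨⟨f, ⟨hf, hf1⟩, rfl⟩, hP⟩
          obtain ⟨y, rfl⟩ := Finset.card_eq_one.1 hf1
          exact ⟨y, ⟨Finset.singleton_subset_iff.1 hf, hP⟩, rfl⟩
        · rintro ⟨y, ⟨hy, hP⟩, rfl⟩
          exact ⟨⟨{y}, ⟨Finset.singleton_subset_iff.2 hy, Finset.card_singleton y⟩, rfl⟩, hP⟩
      rw [Finset.powersetCard_succ_insert hx, Finset.filter_union, Finset.card_union_of_disjoint,
        e1, Finset.card_image_of_injOn]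
      · intro y hy z hz hyz
        have hy' : y ∈ X := (Finset.mem_filter.1 hy).1
        have h1 : y ∈ ({x, z} : Finset (Fin n)) := by
          have h2 : y ∈ ({x, y} : Finset (Fin n)) := by simp
          exact (show ({x, y} : Finset (Fin n)) = {x, z} from hyz) ▸ h2
        rw [Finset.mem_insert, Finset.mem_singleton] at h1
        rcases h1 with h1 | h1
        · exact absurd (h1 ▸ hy') hx
        · exact h1
      · rw [Finset.disjoint_left]
        intro e he he'
        have h1 := (Finset.mem_powersetCard.1 (Finset.mem_filter.1 he).1).1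
        obtain ⟨f, _, rfl⟩ := Finset.mem_image.1 (Finset.mem_filter.1 he').1
        exact hx (h1 (Finset.mem_insert_self x f))
    rw [key (fun e => e ∈ A), key (fun e => e ∉ A)]
    push_cast
    have h2 : ∑ y ∈ X, mat A x y = ((X.filter fun y => ({x, y} : Finset (Fin n)) ∈ A).card : ℝ) -
        ((X.filter fun y => ({x, y} : Finset (Fin n)) ∉ A).card : ℝ) := by
      rw [Finset.card_filter, Finset.card_filter]
      push_cast
      rw [← Finset.sum_sub_distrib]
      refine Finset.sum_congr rfl fun y hy => ?_
      have hxy : x ≠ y := fun h => hx (h ▸ hy)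
      unfold mat
      rw [if_neg hxy]
      split_ifs <;> norm_num
    rw [h2]
    ring

/-- a balanced split has small discrepancy on the sets of `m` points -/
theorem hyp_of_bal {n m : ℕ} {α : ℝ} (A : Finset (Finset (Fin n)))
    (hB : ∀ X : Finset (Fin n), X.card = m → Bal α A X) (hα : α ≤ 1 / 2) :
    Hyp (mat A) m (1 - 2 * α) := by
  intro X hX
  obtain ⟨h1, h2⟩ := hB X hX
  have hsum : ((X.powersetCard 2).filter fun e => e ∈ A).card +
      ((X.powersetCard 2).filter fun e => e ∉ A).card = m.choose 2 := by
    rw [Finset.card_filter_add_card_filter_not, Finset.card_powersetCard, hX]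
  have hsum' : (((X.powersetCard 2).filter fun e => e ∈ A).card : ℝ) +
      (((X.powersetCard 2).filter fun e => e ∉ A).card : ℝ) = (m.choose 2 : ℕ) := by
    exact_mod_cast hsum
  rw [hX] at h1 h2
  have hch : (m.choose 2 : ℝ) ≤ (m : ℝ) ^ 2 / 2 := by
    rw [Nat.cast_choose_two]
    have : (0 : ℝ) ≤ m := Nat.cast_nonneg m
    nlinarith
  rw [Q_mat, abs_le]
  set a := (((X.powersetCard 2).filter fun e => e ∈ A).card : ℝ)
  set b := (((X.powersetCard 2).filter fun e => e ∉ A).card : ℝ)
  have h3 : (1 - 2 * α) * (m.choose 2 : ℝ) ≤ (1 - 2 * α) * ((m : ℝ) ^ 2 / 2) :=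
    mul_le_mul_of_nonneg_left hch (by linarith)
  constructor <;> nlinarith

end Pool.Agent.NH
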