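import Pool.Agent.Lib_helper16.NH.Main

/-!
# The induction, and the two sets
-/

set_option autoImplicit false
set_option linter.unusedSectionVars false

namespace Pool.Agent.NH

open Finset

variable {V : Type*} [Fintype V] [DecidableEq V]

/-- the hypotheses of the construction -/
structure Good [Nonempty V] (A : V → V → ℝ) (ξ ν : ℝ) (j₀ m : ℕ) : Prop where
  col : Col A
  ξ0 : 0 < ξ
  ξ1 : ξ ≤ 1 / 4
  L0 : 0 < Real.log (Fintype.card V)
  Lm : Real.log (Fintype.card V) ≤ m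
  j1 : 1 ≤ j₀
  jm : j₀ ≤ m
  jξ : (j₀ : ℝ) ≤ 3 * ξ ^ 2 * m
  spr : Spr A (Real.exp (-(ξ / 4 * Real.log (Fintype.card V)))) ν
  cond : (Real.exp (-(ξ / 4 * Real.log (Fintype.card V))) +
    Real.exp (-(ξ ^ 2 / 16 * Real.log (Fintype.card V)))) +
    2 * (6 * ν + 2 * Real.exp (-(ξ ^ 2 / 16 * Real.log (Fintype.card V)))) +
    16 * (6 * ν + 2 * Real.exp (-(ξ ^ 2 / 16 * Real.log (Fintype.card V)))) +
    64 * th ξ (Real.log (Fintype.card V)) j₀ ^ 2 ≤ ξ ^ 2 / 80
  θ1 : th ξ (Real.log (Fintype.card V)) j₀ ≤ 1 / 4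
  P : 7 * (m : ℝ) ^ 2 ≤ Real.exp (ξ ^ 2 / 80 * Real.log (Fintype.card V))
  loss : 4 * (7 * (m : ℝ) ^ 2) * ((2 * (2 * m) + 1) *
    Real.exp (-(ξ / 4 * Real.log (Fintype.card V))) +
      3 * Real.exp (-(ξ ^ 2 / 16 * Real.log (Fintype.card V)))) ≤ 1 / m

theorem nodup_cons_pair {a b : V} {l₁ l₂ : List V} (h : (l₁ ++ l₂).Nodup) (hab : a ≠ b)
    (ha : a ∉ (l₁ ++ l₂).toFinset) (hb : b ∉ (l₁ ++ l₂).toFinset) :
    ((a :: l₁) ++ (b :: l₂)).Nodup := by
  have hp : ((a :: l₁) ++ (b :: l₂)).Perm (a :: b :: (l₁ ++ l₂)) := by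
    rw [List.cons_append]
    exact List.Perm.cons a List.perm_middle
  rw [hp.nodup_iff]
  rw [List.mem_toFinset] at ha hb
  refine List.nodup_cons.2 ⟨?_, List.nodup_cons.2 ⟨hb, h⟩⟩
  rw [List.mem_cons]
  rintro (h | h)
  · exact hab h
  · exact ha h

theorem induct [Nonempty V] {A : V → V → ℝ} {ξ ν : ℝ} {j₀ m : ℕ} (g : Good A ξ ν j₀ m) :
    ∀ t, t ≤ m → ∃ l : List (V × V), l.length = t ∧
      (l.map Prod.fst ++ l.map Prod.snd).Nodup ∧
      (∑ s ∈ range t, gam ξ (Real.log (Fintype.card V)) m s) - 3 * m - t / m ≤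
        S A l - Psi A ξ (Real.log (Fintype.card V)) j₀ m l := by
  intro t
  induction t with
  | zero =>
    intro _
    refine ⟨[], rfl, by simp, ?_⟩
    have := Psi_nil A ξ (Real.log (Fintype.card V)) g.j1 m
    simp only [Finset.range_zero, Finset.sum_empty, S, Nat.cast_zero, zero_div]
    linarith
  | succ t ih =>
    intro htm
    obtain ⟨l, hl, hnd, hJ⟩ := ih (by omega)
    have hA := g.col
    set L := Real.log (Fintype.card V) with hL
    have hm1 : (1 : ℝ) ≤ m := by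
      have : 1 ≤ m := by omega
      exact_mod_cast this
    have htm' : (t : ℝ) + 1 ≤ m := by exact_mod_cast htm
    have ht0 : (0 : ℝ) ≤ t := Nat.cast_nonneg t
    have htdiv : (t : ℝ) / m ≤ 1 := by
      rw [div_le_one (by linarith)]
      linarith
    have hgsum : -((m : ℝ) ^ 2) ≤ ∑ s ∈ range t, gam ξ L m s := by
      have h2 : ∑ s ∈ range t, -(m : ℝ) ≤ ∑ s ∈ range t, gam ξ L m s :=
        Finset.sum_le_sum fun s _ => gam_ge g.ξ0.le g.ξ1 g.Lm s
      rw [Finset.sum_const, Finset.card_range, nsmul_eq_mul] at h2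
      nlinarith
    have hS := S_abs hA l
    rw [hl] at hS
    have hS2 : |S A l| ≤ (m : ℝ) ^ 2 := hS.trans (pow_le_pow_left₀ ht0 (by linarith) 2)
    have hPsi : Psi A ξ L j₀ m l ≤ Real.exp (ξ ^ 2 / 80 * L) := by
      refine le_trans ?_ g.P
      have := (abs_le.1 hS2).2
      nlinarith
    -- the bounds for the potentials
    have hterm : ∀ j ∈ Icc j₀ m, upT A ((1 + ξ / 4) * th ξ L j) l ≤ Real.exp (ξ ^ 2 / 80 * L) ∧
        upT A ((1 - ξ / 4) * th ξ L j) l ≤ Real.exp (ξ ^ 2 / 80 * L) ∧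
        (l.length ≤ j → lowT A (ξ ^ 2 / 80) (th ξ L j) l ≤ Real.exp (ξ ^ 2 / 80 * L)) := by
      intro j hj
      have h1 := (term_le_Psi A ξ L hj l).trans hPsi
      have h2 := upT_nonneg A ((1 + ξ / 4) * th ξ L j) l
      have h3 := upT_nonneg A ((1 - ξ / 4) * th ξ L j) l
      have h4 := lowT_nonneg A (ξ ^ 2 / 80) (th ξ L j) l
      have h5 : 0 ≤ (if l.length ≤ j then lowT A (ξ ^ 2 / 80) (th ξ L j) l else 0) := by
        split_ifs
        · exact h4
        · exact le_rfl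
      refine ⟨by linarith, by linarith, fun h6 => ?_⟩
      rw [if_pos h6] at h1
      linarith
    have hξ1 : ξ ≤ 1 := by linarith [g.ξ1]
    have hbad : ∀ j ∈ Icc j₀ m, l.length ≤ j → bad (tilt A (th ξ L j) l)
        (Real.exp (-(ξ / 4 * L))) ≤ Real.exp (-(ξ ^ 2 / 16 * L)) := by
      intro j hj hlj
      obtain ⟨h1, h2, h3⟩ := hterm j hj
      refine bad_tilt A l g.ξ0.le g.ξ1 g.L0.le ?_ (h3 hlj) h1
      rw [th_sq hξ1 g.L0.le]
      have hj1 : 1 ≤ j := g.j1.trans (Finset.mem_Icc.1 hj).1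
      have hjR : (0 : ℝ) < j := by exact_mod_cast hj1
      have hlj' : (l.length : ℝ) ≤ j := by exact_mod_cast hlj
      have h4 : 0 ≤ (1 - ξ) * L := mul_nonneg (by linarith) g.L0.le
      rw [mul_div_assoc', div_le_iff₀ hjR]
      nlinarith
    set js := max l.length j₀ with hjs
    have hjsmem : js ∈ Icc j₀ m := by
      rw [Finset.mem_Icc, hjs]
      refine ⟨le_max_right _ _, max_le ?_ g.jm⟩
      rw [hl]
      omega
    set p := tilt A (th ξ L js) l with hp
    have hp0 : ∀ v, 0 ≤ p v := tilt_nonneg A _ l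
    have hp1 : ∑ v, p v = 1 := tilt_sum A _ l
    have hpb := hbad js hjsmem (le_max_left _ _)
    rw [← hp] at hpb
    have hκ0 : 0 ≤ Real.exp (-(ξ / 4 * L)) := (Real.exp_pos _).le
    have hmP := mean_Psi hA (ξ := ξ) (L := L) (j₀ := j₀) (m := m) hp0 hp1 l (by
      intro j hj hlj
      have hj1 := (Finset.mem_Icc.1 hj).1
      have hb := hbad j hj (by omega)
      have hle : th ξ L j ≤ th ξ L j₀ := th_anti hξ1 g.L0.le g.j1 hj1
      refine mean_lowT hA hp0 hp1 (th_nonneg _ _ _) (hle.trans g.θ1) l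
        (coll (tilt_nonneg A _ l) (tilt_sum A _ l) hp0 hpb hκ0)
        (sq_row hA g.spr (tilt_nonneg A _ l) (tilt_sum A _ l) hb hp0 hp1 hpb hκ0)
        (sq_row hA g.spr hp0 hp1 hpb (tilt_nonneg A _ l) (tilt_sum A _ l) hb hκ0) ?_
      have h2 : th ξ L j ^ 2 ≤ th ξ L j₀ ^ 2 := pow_le_pow_left₀ (th_nonneg _ _ _) hle 2
      have h3 := g.cond
      rw [← hL] at h3
      linarith)
    have hdrift := drift_gam A g.ξ0 g.ξ1 g.j1 g.jξ l g.L0 ((hterm js hjsmem).2.2 (le_max_left _ _))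
      ((hterm js hjsmem).2.1)
    rw [← hL, ← hjs, ← hp, hl] at hdrift
    have hmS := mean_S (A := A) hp1 l
    -- the choice
    set E := S A l - Psi A ξ L j₀ m l + ∑ v, p v * Dv A l v with hE
    have hmean : E ≤ ∑ y, ∑ y', p y * p y' *
        (S A ((y, y') :: l) - Psi A ξ L j₀ m ((y, y') :: l)) := by
      simp only [mul_sub, Finset.sum_sub_distrib]
      rw [hmS]
      linarith
    have hM : ∀ y y', S A ((y, y') :: l) - Psi A ξ L j₀ m ((y, y') :: l) ≤ 7 * (m : ℝ) ^ 2 := by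
      intro y y'
      have h1 := (abs_le.1 (S_abs hA ((y, y') :: l))).2
      have h2 := Psi_nonneg A ξ L j₀ m ((y, y') :: l)
      rw [List.length_cons, hl] at h1
      push_cast at h1
      nlinarith
    have hgt : -(m : ℝ) ≤ gam ξ L m t := gam_ge g.ξ0.le g.ξ1 g.Lm t
    have hEM : -(7 * (m : ℝ) ^ 2) ≤ E := by
      rw [hE]
      nlinarith
    have hUcard : ((l.map Prod.fst ++ l.map Prod.snd).toFinset.card : ℝ) ≤ 2 * m := by
      have h1 := List.toFinset_card_le (l.map Prod.fst ++ l.map Prod.snd)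
      rw [List.length_append, List.length_map, List.length_map, hl] at h1
      have h2 : (l.map Prod.fst ++ l.map Prod.snd).toFinset.card ≤ 2 * m := by omega
      exact_mod_cast h2
    have hbp := bad_pairs hp0 hp1 hpb hκ0 (l.map Prod.fst ++ l.map Prod.snd).toFinset
    set γ := (2 * (2 * (m : ℝ)) + 1) * Real.exp (-(ξ / 4 * L)) +
      3 * Real.exp (-(ξ ^ 2 / 16 * L)) with hγ
    have hγ0 : 0 ≤ γ := by positivity
    have hloss : 4 * (7 * (m : ℝ) ^ 2) * γ ≤ 1 / m := g.loss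
    have hγ2 : γ ≤ 1 / 2 := by
      have h1 : 1 / (m : ℝ) ≤ 1 := by
        rw [div_le_one (by linarith)]
        exact hm1
      nlinarith
    have hbp2 : ∑ y, ∑ y', (if y = y' ∨ y ∈ (l.map Prod.fst ++ l.map Prod.snd).toFinset ∨
        y' ∈ (l.map Prod.fst ++ l.map Prod.snd).toFinset then p y * p y' else 0) ≤ γ := by
      refine hbp.trans ?_
      rw [hγ]
      have : (2 * ((l.map Prod.fst ++ l.map Prod.snd).toFinset.card : ℝ) + 1) *
          Real.exp (-(ξ / 4 * L)) ≤ (2 * (2 * m) + 1) * Real.exp (-(ξ / 4 * L)) :=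
        mul_le_mul_of_nonneg_right (by linarith) hκ0
      linarith
    obtain ⟨y, y', hgood, hF⟩ := choose_pair hp0 hp1 hM hmean hEM
      (fun y y' => y = y' ∨ y ∈ (l.map Prod.fst ++ l.map Prod.snd).toFinset ∨
        y' ∈ (l.map Prod.fst ++ l.map Prod.snd).toFinset) hbp2 hγ2 (by positivity)
    push Not at hgood
    refine ⟨(y, y') :: l, by rw [List.length_cons, hl], ?_, ?_⟩
    · rw [List.map_cons, List.map_cons]
      exact nodup_cons_pair hnd hgood.1 hgood.2.1 hgood.2.2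
    · rw [Finset.sum_range_succ]
      push_cast
      have : ((t : ℝ) + 1) / m = t / m + 1 / m := by ring
      rw [this]
      linarith

/-! ### The two sets -/

theorem Q_cons {A : V → V → ℝ} (hA : Col A) {a : V} {l : List V} (ha : a ∉ l) :
    Q A (a :: l).toFinset = Q A l.toFinset + 2 * ∑ y ∈ l.toFinset, A a y := by
  rw [List.toFinset_cons, Q_insert hA (by rwa [List.mem_toFinset])]

theorem aL_eq (A : V → V → ℝ) (l : List (V × V)) (v : V) (h : (l.map Prod.fst).Nodup) :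
    aL A l v = ∑ y ∈ (l.map Prod.fst).toFinset, A v y := by
  induction l with
  | nil => simp [aL]
  | cons q l ih =>
    rw [List.map_cons, List.nodup_cons] at h
    rw [List.map_cons, List.toFinset_cons, Finset.sum_insert (by rw [List.mem_toFinset]; exact h.1),
      ← ih h.2]
    simp only [aL]
    ring

theorem aR_eq (A : V → V → ℝ) (l : List (V × V)) (v : V) (h : (l.map Prod.snd).Nodup) :
    aR A l v = ∑ y ∈ (l.map Prod.snd).toFinset, A v y := by
  induction l with
  | nil => simp [aR]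
  | cons q l ih =>
    rw [List.map_cons, List.nodup_cons] at h
    rw [List.map_cons, List.toFinset_cons, Finset.sum_insert (by rw [List.mem_toFinset]; exact h.1),
      ← ih h.2]
    simp only [aR]
    ring

theorem S_eq {A : V → V → ℝ} (hA : Col A) (l : List (V × V)) (h : (l.map Prod.fst).Nodup)
    (h' : (l.map Prod.snd).Nodup) :
    2 * S A l = Q A (l.map Prod.fst).toFinset - Q A (l.map Prod.snd).toFinset := by
  induction l with
  | nil => simp [S, Q]
  | cons q l ih =>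
    rw [List.map_cons, List.nodup_cons] at h h'
    rw [List.map_cons, List.map_cons, Q_cons hA h.1, Q_cons hA h'.1, ← aL_eq A l q.1 h.2,
      ← aR_eq A l q.2 h'.2]
    have := ih h.2 h'.2
    simp only [S]
    linarith

theorem two_sets [Nonempty V] {A : V → V → ℝ} {ξ ν : ℝ} {j₀ m : ℕ} (g : Good A ξ ν j₀ m) :
    ∃ X Y : Finset V, X.card = m ∧ Y.card = m ∧
      2 * ((∑ s ∈ range m, gam ξ (Real.log (Fintype.card V)) m s) - 3 * m - 1) ≤
        Q A X - Q A Y := by
  obtain ⟨l, hl, hnd, hJ⟩ := induct g m le_rfl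
  have h1 : (l.map Prod.fst).Nodup := (List.nodup_append.1 hnd).1
  have h2 : (l.map Prod.snd).Nodup := (List.nodup_append.1 hnd).2.1
  refine ⟨(l.map Prod.fst).toFinset, (l.map Prod.snd).toFinset, ?_, ?_, ?_⟩
  · rw [List.toFinset_card_of_nodup h1, List.length_map, hl]
  · rw [List.toFinset_card_of_nodup h2, List.length_map, hl]
  · rw [← S_eq g.col l h1 h2]
    have h3 := Psi_nonneg A ξ (Real.log (Fintype.card V)) j₀ m l
    have h4 : (m : ℝ) / m ≤ 1 := div_self_le_one _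
    linarith

end Pool.Agent.NH
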