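import Pool.Agent.Lib_helper16.NH.Pot

/-!
# The induction
-/

set_option autoImplicit false
set_option linter.unusedSectionVars false

namespace Pool.Agent.NH

open Finset

variable {V : Type*} [Fintype V] [DecidableEq V]

theorem low_bound [Nonempty V] (A : V → V → ℝ) {ε θ e : ℝ} (l : List (V × V))
    (h : lowT A ε θ l ≤ Real.exp e) :
    Real.log (Fintype.card V) + l.length * (θ ^ 2 * (1 - ε)) - e ≤ Real.log (Phi A θ l) := by
  have hΦ := Phi_pos A θ l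
  have hN : (0 : ℝ) < Fintype.card V := by exact_mod_cast Fintype.card_pos
  unfold lowT at h
  have h2 := Real.log_le_log (by positivity) h
  rw [Real.log_exp, Real.log_mul (by positivity) (Real.exp_pos _).ne', Real.log_exp,
    Real.log_div hN.ne' hΦ.ne'] at h2
  linarith

theorem up_bound [Nonempty V] (A : V → V → ℝ) {x e : ℝ} (l : List (V × V))
    (h : upT A x l ≤ Real.exp e) :
    Real.log (Phi A x l) ≤ Real.log (Fintype.card V) + l.length * x ^ 2 + e := by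
  have hΦ := Phi_pos A x l
  have hN : (0 : ℝ) < Fintype.card V := by exact_mod_cast Fintype.card_pos
  unfold upT at h
  have h2 := Real.log_le_log (by positivity) h
  rw [Real.log_exp, Real.log_mul (by positivity) (Real.exp_pos _).ne', Real.log_exp,
    Real.log_div hΦ.ne' hN.ne'] at h2
  linarith

theorem poly_aux {ξ : ℝ} (h0 : 0 ≤ ξ) (h1 : ξ ≤ 1 / 4) :
    (1 + ξ ^ 2 / 80) + (1 + ξ / 4) * (ξ / 4 + ξ ^ 2 / 80) * (1 - ξ) + ξ / 4 * (ξ / 4) -
      (1 + ξ / 4) * (1 - ξ ^ 2 / 80) ≤ -(ξ ^ 2 / 16) := by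
  have h2 : 0 ≤ ξ ^ 2 := sq_nonneg ξ
  have h3 : 0 ≤ ξ ^ 3 := by positivity
  have h4 : 0 ≤ ξ ^ 4 := by positivity
  nlinarith

theorem exponent {ξ L T a b : ℝ} (h0 : 0 ≤ ξ) (h1 : ξ ≤ 1 / 4) (hL : 0 ≤ L)
    (hT : T ≤ (1 - ξ) * L) (ha : a ≤ L + (1 + ξ / 4) ^ 2 * T + ξ ^ 2 / 80 * L)
    (hb : L + T * (1 - ξ ^ 2 / 80) - ξ ^ 2 / 80 * L ≤ b) :
    a + (ξ / 4 * (ξ / 4 * L) - (1 + ξ / 4) * b) ≤ -(ξ ^ 2 / 16 * L) := by
  have hp := mul_le_mul_of_nonneg_right (poly_aux h0 h1) hL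
  have hb' : (1 + ξ / 4) * (L + T * (1 - ξ ^ 2 / 80) - ξ ^ 2 / 80 * L) ≤ (1 + ξ / 4) * b :=
    mul_le_mul_of_nonneg_left hb (by linarith)
  have hc : 0 ≤ (1 + ξ / 4) * (ξ / 4 + ξ ^ 2 / 80) := by positivity
  have hT' := mul_le_mul_of_nonneg_left hT hc
  nlinarith

theorem bad_tilt [Nonempty V] (A : V → V → ℝ) {ξ θ : ℝ} (l : List (V × V)) (h0 : 0 ≤ ξ)
    (h1 : ξ ≤ 1 / 4) (hL : 0 ≤ Real.log (Fintype.card V))
    (hT : l.length * θ ^ 2 ≤ (1 - ξ) * Real.log (Fintype.card V))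
    (hlow : lowT A (ξ ^ 2 / 80) θ l ≤ Real.exp (ξ ^ 2 / 80 * Real.log (Fintype.card V)))
    (hup : upT A ((1 + ξ / 4) * θ) l ≤ Real.exp (ξ ^ 2 / 80 * Real.log (Fintype.card V))) :
    bad (tilt A θ l) (Real.exp (-(ξ / 4 * Real.log (Fintype.card V)))) ≤
      Real.exp (-(ξ ^ 2 / 16 * Real.log (Fintype.card V))) := by
  have hΦ := Phi_pos A ((1 + ξ / 4) * θ) l
  have b1 := low_bound A l hlow
  have b2 := up_bound A l hup
  have b3 := bad_le A θ l (β := ξ / 4) (s := ξ / 4 * Real.log (Fintype.card V)) (by linarith)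
  refine b3.trans ?_
  nth_rewrite 1 [← Real.exp_log hΦ]
  rw [← Real.exp_add, Real.exp_le_exp]
  refine exponent h0 h1 hL hT ?_ ?_
  · refine b2.trans (le_of_eq ?_)
    ring
  · refine le_trans (le_of_eq ?_) b1
    ring

/-- the parameters of the tilts -/
noncomputable def th (ξ L : ℝ) (j : ℕ) : ℝ := Real.sqrt ((1 - ξ) * L / j)

theorem th_nonneg (ξ L : ℝ) (j : ℕ) : 0 ≤ th ξ L j := Real.sqrt_nonneg _

theorem th_sq {ξ L : ℝ} (h1 : ξ ≤ 1) (hL : 0 ≤ L) (j : ℕ) : th ξ L j ^ 2 = (1 - ξ) * L / j :=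
  Real.sq_sqrt (by
    have : 0 ≤ 1 - ξ := by linarith
    positivity)

theorem th_anti {ξ L : ℝ} (h1 : ξ ≤ 1) (hL : 0 ≤ L) {i j : ℕ} (hi : 1 ≤ i) (hij : i ≤ j) :
    th ξ L j ≤ th ξ L i := by
  unfold th
  refine Real.sqrt_le_sqrt ?_
  have : 0 ≤ 1 - ξ := by linarith
  have h2 : (0 : ℝ) < i := by exact_mod_cast hi
  have h3 : (i : ℝ) ≤ j := by exact_mod_cast hij
  exact div_le_div_of_nonneg_left (by positivity) h2 h3

/-- total potential -/
noncomputable def Psi (A : V → V → ℝ) (ξ L : ℝ) (j₀ m : ℕ) (l : List (V × V)) : ℝ :=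
  ∑ j ∈ Icc j₀ m, ((if l.length ≤ j then lowT A (ξ ^ 2 / 80) (th ξ L j) l else 0) +
    upT A ((1 + ξ / 4) * th ξ L j) l + upT A ((1 - ξ / 4) * th ξ L j) l)

theorem Psi_term_nonneg [Nonempty V] (A : V → V → ℝ) (ξ L : ℝ) (l : List (V × V)) (j : ℕ) :
    0 ≤ (if l.length ≤ j then lowT A (ξ ^ 2 / 80) (th ξ L j) l else 0) +
    upT A ((1 + ξ / 4) * th ξ L j) l + upT A ((1 - ξ / 4) * th ξ L j) l := by
  have h1 := upT_nonneg A ((1 + ξ / 4) * th ξ L j) l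
  have h2 := upT_nonneg A ((1 - ξ / 4) * th ξ L j) l
  have h3 : 0 ≤ (if l.length ≤ j then lowT A (ξ ^ 2 / 80) (th ξ L j) l else 0) := by
    split_ifs
    · exact lowT_nonneg _ _ _ _
    · exact le_rfl
  linarith

theorem Psi_nonneg [Nonempty V] (A : V → V → ℝ) (ξ L : ℝ) (j₀ m : ℕ) (l : List (V × V)) :
    0 ≤ Psi A ξ L j₀ m l :=
  Finset.sum_nonneg fun j _ => Psi_term_nonneg A ξ L l j

theorem Psi_nil [Nonempty V] (A : V → V → ℝ) (ξ L : ℝ) {j₀ : ℕ} (hj : 1 ≤ j₀) (m : ℕ) :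
    Psi A ξ L j₀ m [] ≤ 3 * m := by
  unfold Psi
  have : ∀ j ∈ Icc j₀ m, ((if ([] : List (V × V)).length ≤ j then
      lowT A (ξ ^ 2 / 80) (th ξ L j) [] else 0) +
      upT A ((1 + ξ / 4) * th ξ L j) [] + upT A ((1 - ξ / 4) * th ξ L j) []) = 3 := by
    intro j _
    rw [upT_nil, upT_nil, lowT_nil]
    simp only [List.length_nil, Nat.zero_le, if_true]
    norm_num
  rw [Finset.sum_congr rfl this, Finset.sum_const, Nat.card_Icc, nsmul_eq_mul]
  have h2 : ((m + 1 - j₀ : ℕ) : ℝ) ≤ m := by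
    have : m + 1 - j₀ ≤ m := by omega
    exact_mod_cast this
  linarith

theorem term_le_Psi [Nonempty V] (A : V → V → ℝ) (ξ L : ℝ) {j₀ m j : ℕ} (hj : j ∈ Icc j₀ m)
    (l : List (V × V)) : (if l.length ≤ j then lowT A (ξ ^ 2 / 80) (th ξ L j) l else 0) +
    upT A ((1 + ξ / 4) * th ξ L j) l + upT A ((1 - ξ / 4) * th ξ L j) l ≤ Psi A ξ L j₀ m l :=
  Finset.single_le_sum (f := fun j => (if l.length ≤ j then
    lowT A (ξ ^ 2 / 80) (th ξ L j) l else 0) +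
    upT A ((1 + ξ / 4) * th ξ L j) l + upT A ((1 - ξ / 4) * th ξ L j) l)
    (fun j _ => Psi_term_nonneg A ξ L l j) hj

theorem triple_comm (s : Finset ℕ) (f : V → V → ℕ → ℝ) :
    ∑ y, ∑ y', ∑ j ∈ s, f y y' j = ∑ j ∈ s, ∑ y, ∑ y', f y y' j := by
  calc ∑ y, ∑ y', ∑ j ∈ s, f y y' j = ∑ y, ∑ j ∈ s, ∑ y', f y y' j :=
        Finset.sum_congr rfl fun y _ => Finset.sum_comm
    _ = _ := Finset.sum_comm

theorem mean_Psi [Nonempty V] {A : V → V → ℝ} (hA : Col A) {ξ L : ℝ} {j₀ m : ℕ}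
    {p : V → ℝ} (hp0 : ∀ v, 0 ≤ p v) (hp1 : ∑ v, p v = 1) (l : List (V × V))
    (hlow : ∀ j ∈ Icc j₀ m, l.length + 1 ≤ j →
      ∑ y, ∑ y', p y * p y' * lowT A (ξ ^ 2 / 80) (th ξ L j) ((y, y') :: l) ≤
        lowT A (ξ ^ 2 / 80) (th ξ L j) l) :
    ∑ y, ∑ y', p y * p y' * Psi A ξ L j₀ m ((y, y') :: l) ≤ Psi A ξ L j₀ m l := by
  unfold Psi
  simp only [Finset.mul_sum]
  rw [triple_comm]
  refine Finset.sum_le_sum fun j hj => ?_
  simp only [mul_add, Finset.sum_add_distrib]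
  have u1 := mean_upT hA hp0 hp1 ((1 + ξ / 4) * th ξ L j) l
  have u2 := mean_upT hA hp0 hp1 ((1 - ξ / 4) * th ξ L j) l
  have u3 : ∑ y, ∑ y', p y * p y' * (if ((y, y') :: l).length ≤ j then
      lowT A (ξ ^ 2 / 80) (th ξ L j) ((y, y') :: l) else 0) ≤
      (if l.length ≤ j then lowT A (ξ ^ 2 / 80) (th ξ L j) l else 0) := by
    by_cases h : l.length + 1 ≤ j
    · have h1 : l.length ≤ j := by omega
      rw [if_pos h1]
      have : ∀ y y' : V, ((y, y') :: l).length ≤ j := fun y y' => by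
        rw [List.length_cons]
        exact h
      simp only [this, if_true]
      exact hlow j hj h
    · have : ∀ y y' : V, ¬ ((y, y') :: l).length ≤ j := fun y y' => by
        rw [List.length_cons]
        exact h
      simp only [this, if_false, mul_zero, Finset.sum_const_zero]
      split_ifs
      · exact lowT_nonneg _ _ _ _
      · exact le_rfl
  linarith

/-- lower bound for the mean of the difference of the row sums -/
noncomputable def gam (ξ L : ℝ) (m s : ℕ) : ℝ :=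
  (2 - 3 * ξ) * Real.sqrt (L * s) - 4 * ξ * Real.sqrt (L * m)

theorem gam_ge {ξ L : ℝ} (h0 : 0 ≤ ξ) (h1 : ξ ≤ 1 / 4) {m : ℕ} (hLm : L ≤ m) (s : ℕ) :
    -(m : ℝ) ≤ gam ξ L m s := by
  unfold gam
  have h2 : Real.sqrt (L * m) ≤ m := by
    rw [show (m : ℝ) = Real.sqrt ((m : ℝ) ^ 2) from (Real.sqrt_sq (Nat.cast_nonneg m)).symm]
    refine Real.sqrt_le_sqrt ?_
    rw [Real.sqrt_sq (Nat.cast_nonneg m)]
    have : (0 : ℝ) ≤ m := Nat.cast_nonneg m
    nlinarith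
  have h3 := Real.sqrt_nonneg (L * s)
  have h4 := Real.sqrt_nonneg (L * m)
  nlinarith

theorem num_one {ξ s q tt u z : ℝ} (h0 : 0 < ξ) (h1 : ξ ≤ 1 / 4) (hs0 : 0 ≤ s)
    (hs : (1 - ξ) * s ≤ q) (hz : 0 ≤ z) (ht : tt = q * (2 - 3 * ξ / 10))
    (hu : u ≤ ξ / 10 * (4 / 3 * q)) : (2 - 3 * ξ) * s - z ≤ tt - u := by
  have k3 : (1 - ξ) * s * (2 - 13 * ξ / 30) ≤ q * (2 - 13 * ξ / 30) :=
    mul_le_mul_of_nonneg_right hs (by linarith)
  have k4 : (2 - 3 * ξ) * s ≤ (1 - ξ) * s * (2 - 13 * ξ / 30) := by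
    have : (2 - 3 * ξ) ≤ (1 - ξ) * (2 - 13 * ξ / 30) := by nlinarith
    calc (2 - 3 * ξ) * s ≤ (1 - ξ) * (2 - 13 * ξ / 30) * s := mul_le_mul_of_nonneg_right this hs0
      _ = _ := by ring
  have k5 : tt - ξ / 10 * (4 / 3 * q) = q * (2 - 13 * ξ / 30) := by rw [ht]; ring
  linarith

theorem num_two {ξ x y z q tt u : ℝ} (h0 : 0 < ξ) (h1 : ξ ≤ 1 / 4) (hx0 : 0 ≤ x) (hxy : x ≤ y)
    (k2 : y * (41 / 20) ≤ z) (k3 : q ≤ y) (hq0 : 0 ≤ q) (k4 : 0 ≤ tt)
    (k5 : u ≤ ξ / 10 * (4 / 3 * q)) : (2 - 3 * ξ) * x - z ≤ tt - u := by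
  have k8 : (2 - 3 * ξ) * x ≤ 2 * x := mul_le_mul_of_nonneg_right (by linarith) hx0
  have k9 : ξ / 10 * (4 / 3 * q) ≤ 1 / 40 * (4 / 3 * q) :=
    mul_le_mul_of_nonneg_right (by linarith) (by linarith)
  linarith

theorem drift_gam [Nonempty V] (A : V → V → ℝ) {ξ : ℝ} (h0 : 0 < ξ) (h1 : ξ ≤ 1 / 4)
    {j₀ m : ℕ} (hj0 : 1 ≤ j₀) (hj0m : (j₀ : ℝ) ≤ 3 * ξ ^ 2 * m) (l : List (V × V))
    (hL : 0 < Real.log (Fintype.card V))
    (hlow : lowT A (ξ ^ 2 / 80) (th ξ (Real.log (Fintype.card V)) (max l.length j₀)) l ≤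
      Real.exp (ξ ^ 2 / 80 * Real.log (Fintype.card V)))
    (hup : upT A ((1 - ξ / 4) * th ξ (Real.log (Fintype.card V)) (max l.length j₀)) l ≤
      Real.exp (ξ ^ 2 / 80 * Real.log (Fintype.card V))) :
    gam ξ (Real.log (Fintype.card V)) m l.length ≤
      ∑ v, tilt A (th ξ (Real.log (Fintype.card V)) (max l.length j₀)) l v * Dv A l v := by
  set L := Real.log (Fintype.card V) with hLdef
  set j := max l.length j₀ with hj
  set θ := th ξ L j with hθ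
  have hj1 : 1 ≤ j := hj0.trans (le_max_right _ _)
  have hjR : (0 : ℝ) < j := by exact_mod_cast hj1
  have hθsq : θ ^ 2 = (1 - ξ) * L / j := th_sq (by linarith) hL.le j
  have hθpos : 0 < θ := by
    rw [hθ, th]
    refine Real.sqrt_pos.2 ?_
    have : 0 < 1 - ξ := by linarith
    positivity
  have b1 := low_bound A l hlow
  have b2 := up_bound A l hup
  have b3 := drift_ge A θ (ξ / 4) l
  rw [← hLdef] at b1 b2
  set m₁ := ∑ v, tilt A θ l v * Dv A l v with hm1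
  set t : ℝ := (l.length : ℝ) with ht
  have ht0 : 0 ≤ t := Nat.cast_nonneg _
  have hb : t * θ ^ 2 * (ξ / 2 - ξ ^ 2 / 16 - ξ ^ 2 / 80) - ξ ^ 2 / 40 * L ≤ ξ / 4 * θ * m₁ := by
    nlinarith
  -- divide by `ξ / 4`
  have hb2 : t * θ ^ 2 * (2 - 3 * ξ / 10) - ξ / 10 * L ≤ θ * m₁ := by
    have : ξ / 4 * (t * θ ^ 2 * (2 - 3 * ξ / 10) - ξ / 10 * L) ≤ ξ / 4 * (θ * m₁) := by
      nlinarith
    exact le_of_mul_le_mul_left this (by linarith)
  -- the number `L / θ`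
  have hθj : θ * Real.sqrt (j * ((1 - ξ) * L)) = (1 - ξ) * L := by
    have h2 : 0 ≤ (1 - ξ) * L := by
      have : 0 < 1 - ξ := by linarith
      positivity
    rw [hθ, th, ← Real.sqrt_mul (by positivity)]
    have : (1 - ξ) * L / j * (j * ((1 - ξ) * L)) = ((1 - ξ) * L) ^ 2 := by
      field_simp
    rw [this, Real.sqrt_sq h2]
  have h1ξ : 0 < 1 - ξ := by linarith
  -- square roots
  set q := Real.sqrt (j * ((1 - ξ) * L)) with hq
  have hq0 : 0 < q := Real.sqrt_pos.2 (by positivity)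
  have hq2 : q ^ 2 = j * ((1 - ξ) * L) := Real.sq_sqrt (by positivity)
  have hsj : (1 - ξ) * Real.sqrt (L * j) ≤ q ∧ q ≤ Real.sqrt (L * j) := by
    constructor
    · rw [hq]
      refine Real.le_sqrt_of_sq_le ?_
      rw [mul_pow, Real.sq_sqrt (by positivity)]
      have : 0 ≤ L * j := by positivity
      nlinarith
    · rw [hq]
      refine Real.sqrt_le_sqrt ?_
      have : 0 ≤ L * j := by positivity
      nlinarith
  have hqθ : θ * j = q := by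
    have : θ * q * j = q * q := by
      rw [hθj, ← sq, hq2]
      ring
    have h3 : θ * j * q = q * q := by linarith
    exact mul_right_cancel₀ hq0.ne' h3
  -- bound for `m₁`
  have hm1 : t * θ * (2 - 3 * ξ / 10) - ξ / 10 * (q / (1 - ξ)) ≤ m₁ := by
    have hLq : θ * (q / (1 - ξ)) = L := by
      rw [mul_div_assoc', hθj]
      field_simp
    have : θ * (t * θ * (2 - 3 * ξ / 10) - ξ / 10 * (q / (1 - ξ))) ≤ θ * m₁ := by
      have e : θ * (t * θ * (2 - 3 * ξ / 10) - ξ / 10 * (q / (1 - ξ))) =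
          t * θ ^ 2 * (2 - 3 * ξ / 10) - ξ / 10 * (θ * (q / (1 - ξ))) := by ring
      rw [e, hLq]
      exact hb2
    exact le_of_mul_le_mul_left this hθpos
  refine le_trans ?_ hm1
  have hq' : q / (1 - ξ) ≤ 4 / 3 * q := by
    rw [div_le_iff₀ h1ξ]
    nlinarith
  have hsm0 := Real.sqrt_nonneg (L * m)
  unfold gam
  have k5 : ξ / 10 * (q / (1 - ξ)) ≤ ξ / 10 * (4 / 3 * q) :=
    mul_le_mul_of_nonneg_left hq' (by linarith)
  rcases le_total j₀ l.length with hc | hc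
  · have hjl : j = l.length := max_eq_left hc
    have htj : t = j := by rw [ht, hjl]
    rw [← hjl]
    have e : t * θ = q := by rw [htj, mul_comm, hqθ]
    exact num_one h0 h1 (Real.sqrt_nonneg _) hsj.1 (by positivity) (by rw [e]) k5
  · have hjl : j = j₀ := max_eq_right hc
    have k1 : Real.sqrt (L * l.length) ≤ Real.sqrt (L * j₀) := by
      refine Real.sqrt_le_sqrt (mul_le_mul_of_nonneg_left ?_ hL.le)
      exact_mod_cast hc
    have k2 : Real.sqrt (L * j₀) * (41 / 20) ≤ 4 * ξ * Real.sqrt (L * m) := by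
      refine le_of_sq_le_sq ?_ (by positivity)
      rw [mul_pow, mul_pow, Real.sq_sqrt (by positivity), Real.sq_sqrt (by positivity)]
      have k3 := mul_le_mul_of_nonneg_left hj0m hL.le
      have k4 : 0 ≤ ξ ^ 2 * (L * m) := by positivity
      nlinarith only [k3, k4]
    have k3 : q ≤ Real.sqrt (L * j₀) := by
      rw [← hjl]
      exact hsj.2
    have k4 : 0 ≤ t * θ * (2 - 3 * ξ / 10) :=
      mul_nonneg (mul_nonneg ht0 hθpos.le) (by linarith)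
    exact num_two h0 h1 (Real.sqrt_nonneg _) k1 k2 k3 hq0.le k4 k5

end Pool.Agent.NH
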