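import Pool.Agent.Lib_helper16.NH.Step

/-!
# Potentials along a list of pairs of points
-/

set_option autoImplicit false
set_option linter.unusedSectionVars false

namespace Pool.Agent.NH

open Finset

variable {V : Type*} [Fintype V] [DecidableEq V]

/-- row sums over the first points of the pairs -/
def aL (A : V → V → ℝ) : List (V × V) → V → ℝ
  | [], _ => 0
  | q :: l, v => aL A l v + A v q.1

/-- row sums over the second points of the pairs -/
def aR (A : V → V → ℝ) : List (V × V) → V → ℝ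
  | [], _ => 0
  | q :: l, v => aR A l v + A v q.2

/-- the difference of the row sums -/
def Dv (A : V → V → ℝ) (l : List (V × V)) (v : V) : ℝ := aL A l v - aR A l v

/-- difference of the discrepancies of the first and of the second points -/
def S (A : V → V → ℝ) : List (V × V) → ℝ
  | [] => 0
  | q :: l => S A l + (aL A l q.1 - aR A l q.2)

theorem Dv_nil (A : V → V → ℝ) (v : V) : Dv A [] v = 0 := by simp [Dv, aL, aR]

theorem Dv_cons (A : V → V → ℝ) (q : V × V) (l : List (V × V)) (v : V) :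
    Dv A (q :: l) v = Dv A l v + (A v q.1 - A v q.2) := by
  simp only [Dv, aL, aR]
  ring

/-- sum of the weights -/
noncomputable def Phi (A : V → V → ℝ) (θ : ℝ) (l : List (V × V)) : ℝ :=
  ∑ v, Real.exp (θ * Dv A l v)

/-- tilted distribution -/
noncomputable def tilt (A : V → V → ℝ) (θ : ℝ) (l : List (V × V)) (v : V) : ℝ :=
  Real.exp (θ * Dv A l v) / Phi A θ l

theorem Phi_pos [Nonempty V] (A : V → V → ℝ) (θ : ℝ) (l : List (V × V)) : 0 < Phi A θ l :=
  Finset.sum_pos (fun _ _ => Real.exp_pos _) Finset.univ_nonempty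

theorem Phi_nil (A : V → V → ℝ) (θ : ℝ) : Phi A θ [] = Fintype.card V := by
  simp [Phi, Dv_nil]

theorem Phi_cons (A : V → V → ℝ) (θ : ℝ) (q : V × V) (l : List (V × V)) :
    Phi A θ (q :: l) = ∑ v, Real.exp (θ * Dv A l v) * Real.exp (θ * (A v q.1 - A v q.2)) := by
  unfold Phi
  refine Finset.sum_congr rfl fun v _ => ?_
  rw [Dv_cons, mul_add, Real.exp_add]

theorem tilt_nonneg [Nonempty V] (A : V → V → ℝ) (θ : ℝ) (l : List (V × V)) (v : V) :
    0 ≤ tilt A θ l v := div_nonneg (Real.exp_pos _).le (Phi_pos A θ l).le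

theorem tilt_sum [Nonempty V] (A : V → V → ℝ) (θ : ℝ) (l : List (V × V)) :
    ∑ v, tilt A θ l v = 1 := by
  unfold tilt
  rw [← Finset.sum_div]
  exact div_self (Phi_pos A θ l).ne'

theorem R_eq [Nonempty V] (A : V → V → ℝ) (θ : ℝ) (l : List (V × V)) (q : V × V) :
    R A (tilt A θ l) θ q.1 q.2 = Phi A θ (q :: l) / Phi A θ l := by
  unfold R tilt
  rw [Phi_cons, Finset.sum_div]
  refine Finset.sum_congr rfl fun v _ => ?_
  ring

/-- upper potential -/
noncomputable def upT (A : V → V → ℝ) (x : ℝ) (l : List (V × V)) : ℝ :=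
  Phi A x l / Fintype.card V * Real.exp (-(l.length * x ^ 2))

/-- lower potential -/
noncomputable def lowT (A : V → V → ℝ) (ε θ : ℝ) (l : List (V × V)) : ℝ :=
  Fintype.card V / Phi A θ l * Real.exp (l.length * (θ ^ 2 * (1 - ε)))

theorem upT_nonneg [Nonempty V] (A : V → V → ℝ) (x : ℝ) (l : List (V × V)) : 0 ≤ upT A x l := by
  have := Phi_pos A x l
  unfold upT
  positivity

theorem lowT_nonneg [Nonempty V] (A : V → V → ℝ) (ε θ : ℝ) (l : List (V × V)) :
    0 ≤ lowT A ε θ l := by
  have := Phi_pos A θ l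
  unfold lowT
  positivity

theorem upT_nil [Nonempty V] (A : V → V → ℝ) (x : ℝ) : upT A x [] = 1 := by
  unfold upT
  have : (0 : ℝ) < Fintype.card V := by exact_mod_cast Fintype.card_pos
  rw [Phi_nil, div_self this.ne']
  simp

theorem lowT_nil [Nonempty V] (A : V → V → ℝ) (ε θ : ℝ) : lowT A ε θ [] = 1 := by
  unfold lowT
  have : (0 : ℝ) < Fintype.card V := by exact_mod_cast Fintype.card_pos
  rw [Phi_nil, div_self this.ne']
  simp

theorem mean_upT [Nonempty V] {A : V → V → ℝ} (hA : Col A) {p : V → ℝ} (hp0 : ∀ v, 0 ≤ p v)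
    (hp1 : ∑ v, p v = 1) (x : ℝ) (l : List (V × V)) :
    ∑ y, ∑ y', p y * p y' * upT A x ((y, y') :: l) ≤ upT A x l := by
  have h := step_up hA hp0 hp1 (W := fun v => Real.exp (x * Dv A l v))
    (fun v => (Real.exp_pos _).le) x
  have e : ∑ y, ∑ y', p y * p y' * upT A x ((y, y') :: l) =
      (∑ y, ∑ y', p y * p y' * ∑ v, Real.exp (x * Dv A l v) *
        Real.exp (x * (A v y - A v y'))) * (Real.exp (-((l.length + 1) * x ^ 2)) /
          Fintype.card V) := by
    rw [Finset.sum_mul]
    refine Finset.sum_congr rfl fun y _ => ?_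
    rw [Finset.sum_mul]
    refine Finset.sum_congr rfl fun y' _ => ?_
    unfold upT
    rw [Phi_cons]
    simp only [List.length_cons, Nat.cast_add, Nat.cast_one]
    ring
  rw [e]
  have hc : 0 ≤ Real.exp (-((l.length + 1) * x ^ 2)) / (Fintype.card V : ℝ) := by positivity
  refine (mul_le_mul_of_nonneg_right h hc).trans (le_of_eq ?_)
  unfold upT Phi
  have : Real.exp (-((l.length : ℝ) * x ^ 2)) = Real.exp (x ^ 2) *
      Real.exp (-((l.length + 1) * x ^ 2)) := by
    rw [← Real.exp_add]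
    congr 1
    ring
  rw [this]
  ring

theorem mean_lowT [Nonempty V] {A : V → V → ℝ} (hA : Col A) {p : V → ℝ} (hp0 : ∀ v, 0 ≤ p v)
    (hp1 : ∑ v, p v = 1) {θ : ℝ} (h0 : 0 ≤ θ) (h1 : θ ≤ 1 / 4) (l : List (V × V))
    {c₁ c₂ c₃ ε : ℝ} (hc1 : ∑ v, tilt A θ l v * p v ≤ c₁)
    (hc2 : ∑ v, tilt A θ l v * row A p v ^ 2 ≤ c₂)
    (hc3 : ∑ v, p v * row A (tilt A θ l) v ^ 2 ≤ c₃)
    (hε : c₁ + 2 * c₂ + 16 * c₃ + 64 * θ ^ 2 ≤ ε) :
    ∑ y, ∑ y', p y * p y' * lowT A ε θ ((y, y') :: l) ≤ lowT A ε θ l := by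
  have h := mean_inv hA hp0 hp1 (tilt_nonneg A θ l) (tilt_sum A θ l) h0 h1 hc1 hc2 hc3
  have hΦ := Phi_pos A θ l
  have e : ∑ y, ∑ y', p y * p y' * lowT A ε θ ((y, y') :: l) =
      (∑ y, ∑ y', p y * p y' * (1 / R A (tilt A θ l) θ y y')) *
        (Fintype.card V / Phi A θ l * Real.exp ((l.length + 1) * (θ ^ 2 * (1 - ε)))) := by
    rw [Finset.sum_mul]
    refine Finset.sum_congr rfl fun y _ => ?_
    rw [Finset.sum_mul]
    refine Finset.sum_congr rfl fun y' _ => ?_
    have hΦ' := Phi_pos A θ ((y, y') :: l)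
    have hR := R_eq A θ l (y, y')
    simp only at hR
    rw [hR]
    unfold lowT
    simp only [List.length_cons, Nat.cast_add, Nat.cast_one]
    field_simp
  rw [e]
  have hc : 0 ≤ (Fintype.card V : ℝ) / Phi A θ l *
      Real.exp ((l.length + 1) * (θ ^ 2 * (1 - ε))) := by positivity
  refine (mul_le_mul_of_nonneg_right h hc).trans ?_
  unfold lowT
  have e2 : Real.exp (-(θ ^ 2 * (1 - (c₁ + 2 * c₂ + 16 * c₃ + 64 * θ ^ 2)))) *
      ((Fintype.card V : ℝ) / Phi A θ l * Real.exp ((l.length + 1) * (θ ^ 2 * (1 - ε)))) =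
      (Fintype.card V : ℝ) / Phi A θ l * Real.exp (-(θ ^ 2 * (1 - (c₁ + 2 * c₂ + 16 * c₃ +
        64 * θ ^ 2))) + (l.length + 1) * (θ ^ 2 * (1 - ε))) := by
    rw [Real.exp_add]
    ring
  rw [e2]
  refine mul_le_mul_of_nonneg_left ?_ (by positivity)
  rw [Real.exp_le_exp]
  nlinarith [sq_nonneg θ]

theorem mean_S {A : V → V → ℝ} {p : V → ℝ} (hp1 : ∑ v, p v = 1) (l : List (V × V)) :
    ∑ y, ∑ y', p y * p y' * S A ((y, y') :: l) = S A l + ∑ v, p v * Dv A l v := by
  have e1 : ∑ y, ∑ y', p y * p y' * S A l = S A l := by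
    simp only [← Finset.sum_mul, ← Finset.mul_sum]
    rw [hp1]
    simp
  have e2 : ∑ y, ∑ y', p y * p y' * aL A l y = ∑ v, p v * aL A l v := by
    refine Finset.sum_congr rfl fun y _ => ?_
    calc ∑ y', p y * p y' * aL A l y = ∑ y', p y' * (p y * aL A l y) :=
          Finset.sum_congr rfl fun y' _ => by ring
      _ = _ := by rw [← Finset.sum_mul, hp1, one_mul]
  have e3 : ∑ y, ∑ y', p y * p y' * aR A l y' = ∑ v, p v * aR A l v := by
    rw [Finset.sum_comm]
    refine Finset.sum_congr rfl fun y _ => ?_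
    calc ∑ y', p y' * p y * aR A l y = ∑ y', p y' * (p y * aR A l y) :=
          Finset.sum_congr rfl fun y' _ => by ring
      _ = _ := by rw [← Finset.sum_mul, hp1, one_mul]
  have e4 : ∀ y y', p y * p y' * S A ((y, y') :: l) = p y * p y' * S A l +
      (p y * p y' * aL A l y - p y * p y' * aR A l y') := by
    intro y y'
    simp only [S]
    ring
  simp only [e4, Finset.sum_add_distrib, Finset.sum_sub_distrib]
  rw [e1, e2, e3]
  unfold Dv
  simp only [mul_sub, Finset.sum_sub_distrib]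

theorem aL_abs {A : V → V → ℝ} (hA : Col A) (l : List (V × V)) (v : V) :
    |aL A l v| ≤ l.length := by
  induction l with
  | nil => simp [aL]
  | cons q l ih =>
    simp only [aL, List.length_cons, Nat.cast_add, Nat.cast_one]
    exact (abs_add_le _ _).trans (add_le_add ih (hA.abs_le v q.1))

theorem aR_abs {A : V → V → ℝ} (hA : Col A) (l : List (V × V)) (v : V) :
    |aR A l v| ≤ l.length := by
  induction l with
  | nil => simp [aR]
  | cons q l ih =>
    simp only [aR, List.length_cons, Nat.cast_add, Nat.cast_one]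
    exact (abs_add_le _ _).trans (add_le_add ih (hA.abs_le v q.2))

theorem S_abs {A : V → V → ℝ} (hA : Col A) (l : List (V × V)) :
    |S A l| ≤ (l.length : ℝ) ^ 2 := by
  induction l with
  | nil => simp [S]
  | cons q l ih =>
    simp only [S, List.length_cons, Nat.cast_add, Nat.cast_one]
    have h1 := abs_le.1 (aL_abs hA l q.1)
    have h2 := abs_le.1 (aR_abs hA l q.2)
    rw [abs_le] at ih ⊢
    constructor <;> nlinarith [h1.1, h1.2, h2.1, h2.2]

/-! ### Consequences of bounds for the sums of the weights -/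

theorem bad_le [Nonempty V] (A : V → V → ℝ) (θ : ℝ) (l : List (V × V)) {β s : ℝ} (hβ : 0 ≤ β) :
    bad (tilt A θ l) (Real.exp (-s)) ≤ Phi A ((1 + β) * θ) l *
      Real.exp (β * s - (1 + β) * Real.log (Phi A θ l)) := by
  have hΦ := Phi_pos A θ l
  have ht : ∀ v, tilt A θ l v = Real.exp (θ * Dv A l v - Real.log (Phi A θ l)) := by
    intro v
    unfold tilt
    rw [Real.exp_sub, Real.exp_log hΦ]
  unfold bad
  rw [Phi, Finset.sum_mul]
  refine Finset.sum_le_sum fun v _ => ?_
  split_ifs with h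
  · positivity
  · push Not at h
    rw [ht v, Real.exp_lt_exp] at h
    rw [ht v, ← Real.exp_add, Real.exp_le_exp]
    nlinarith

theorem drift_ge [Nonempty V] (A : V → V → ℝ) (θ β : ℝ) (l : List (V × V)) :
    Real.log (Phi A θ l) - Real.log (Phi A ((1 - β) * θ) l) ≤
      β * θ * ∑ v, tilt A θ l v * Dv A l v := by
  have hΦ := Phi_pos A θ l
  have hΦ' := Phi_pos A ((1 - β) * θ) l
  set a : ℝ := -(β * θ * ∑ v, tilt A θ l v * Dv A l v) with ha
  have e : Phi A ((1 - β) * θ) l = Phi A θ l * ∑ v, tilt A θ l v * Real.exp (-(β * θ * Dv A l v)) := by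
    rw [Finset.mul_sum]
    unfold Phi
    refine Finset.sum_congr rfl fun v _ => ?_
    unfold tilt
    have : (1 - β) * θ * Dv A l v = θ * Dv A l v + -(β * θ * Dv A l v) := by ring
    rw [this, Real.exp_add]
    have h2 : Phi A θ l ≠ 0 := hΦ.ne'
    unfold Phi at h2 ⊢
    field_simp
  have h1 : Real.exp a ≤ ∑ v, tilt A θ l v * Real.exp (-(β * θ * Dv A l v)) := by
    calc Real.exp a = ∑ v, tilt A θ l v * (Real.exp a * (1 + (-(β * θ * Dv A l v) - a))) := by
          have : ∀ v, tilt A θ l v * (Real.exp a * (1 + (-(β * θ * Dv A l v) - a))) =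
              Real.exp a * (1 - a) * tilt A θ l v - Real.exp a * (β * θ) *
                (tilt A θ l v * Dv A l v) := fun v => by ring
          rw [Finset.sum_congr rfl fun v _ => this v, Finset.sum_sub_distrib, ← Finset.mul_sum,
            ← Finset.mul_sum, tilt_sum]
          have h2 : Real.exp a * (β * θ) * ∑ v, tilt A θ l v * Dv A l v = -(Real.exp a * a) := by
            rw [ha]
            ring
          rw [h2]
          ring
      _ ≤ _ := by
          refine Finset.sum_le_sum fun v _ => mul_le_mul_of_nonneg_left ?_ (tilt_nonneg A θ l v)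
          have h2 := Real.add_one_le_exp (-(β * θ * Dv A l v) - a)
          have h3 : Real.exp (-(β * θ * Dv A l v)) = Real.exp a *
              Real.exp (-(β * θ * Dv A l v) - a) := by
            rw [← Real.exp_add]
            congr 1
            ring
          rw [h3]
          refine mul_le_mul_of_nonneg_left ?_ (Real.exp_pos a).le
          linarith
  have h2 : Real.log (Phi A θ l) + a ≤ Real.log (Phi A ((1 - β) * θ) l) := by
    rw [e, Real.log_mul hΦ.ne' (lt_of_lt_of_le (Real.exp_pos a) h1).ne']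
    have := Real.log_le_log (Real.exp_pos a) h1
    rw [Real.log_exp] at this
    linarith
  rw [ha] at h2
  linarith

/-! ### Choice of a pair -/

theorem choose_pair {p : V → ℝ} (hp0 : ∀ v, 0 ≤ p v) (hp1 : ∑ v, p v = 1) {F : V → V → ℝ}
    {M E γ : ℝ} (hM : ∀ y y', F y y' ≤ M) (hE : E ≤ ∑ y, ∑ y', p y * p y' * F y y')
    (hEM : -M ≤ E) (bd : V → V → Prop) [∀ y y', Decidable (bd y y')]
    (hbd : ∑ y, ∑ y', (if bd y y' then p y * p y' else 0) ≤ γ) (hγ : γ ≤ 1 / 2) (hM0 : 0 ≤ M) :
    ∃ y y', ¬ bd y y' ∧ E - 4 * M * γ ≤ F y y' := by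
  by_contra hcon
  push Not at hcon
  have hpp : ∑ y, ∑ y', p y * p y' = 1 := by
    rw [← Finset.sum_mul_sum, hp1, one_mul]
  set P := ∑ y, ∑ y', (if bd y y' then p y * p y' else 0) with hP
  have hP0 : 0 ≤ P := Finset.sum_nonneg fun y _ => Finset.sum_nonneg fun y' _ => by
    split_ifs
    · exact mul_nonneg (hp0 y) (hp0 y')
    · exact le_rfl
  have key : ∑ y, ∑ y', p y * p y' * F y y' < (1 - P) * (E - 4 * M * γ) + P * M := by
    have e : (1 - P) * (E - 4 * M * γ) + P * M = ∑ y, ∑ y', (p y * p y' * (E - 4 * M * γ) +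
        (if bd y y' then p y * p y' else 0) * (M - (E - 4 * M * γ))) := by
      simp only [Finset.sum_add_distrib, ← Finset.sum_mul]
      rw [hpp, ← hP]
      ring
    rw [e]
    have hle : ∀ y y', p y * p y' * F y y' ≤ p y * p y' * (E - 4 * M * γ) +
        (if bd y y' then p y * p y' else 0) * (M - (E - 4 * M * γ)) := by
      intro y y'
      have h2 : 0 ≤ p y * p y' := mul_nonneg (hp0 y) (hp0 y')
      split_ifs with hb
      · nlinarith [hM y y']
      · nlinarith [hcon y y' hb]
    -- there is a pair of positive weight which is not bad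
    have hex : ∃ y y', ¬ bd y y' ∧ 0 < p y * p y' := by
      by_contra hno
      push Not at hno
      have : ∑ y, ∑ y', p y * p y' ≤ P := by
        rw [hP]
        refine Finset.sum_le_sum fun y _ => Finset.sum_le_sum fun y' _ => ?_
        split_ifs with hb
        · exact le_rfl
        · exact hno y y' hb
      rw [hpp] at this
      linarith
    obtain ⟨y₀, y₀', hb0, hpos⟩ := hex
    refine Finset.sum_lt_sum (fun y _ => Finset.sum_le_sum fun y' _ => hle y y')
      ⟨y₀, Finset.mem_univ _, ?_⟩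
    refine Finset.sum_lt_sum (fun y' _ => hle y₀ y') ⟨y₀', Finset.mem_univ _, ?_⟩
    rw [if_neg hb0]
    nlinarith [hcon y₀ y₀' hb0]
  have h3 := lt_of_le_of_lt hE key
  have h4 : P ≤ γ := hbd
  have hγ0 : 0 ≤ γ := hP0.trans h4
  have h5 : (1 - P) * (4 * M * γ) < P * (M - E) := by nlinarith
  have h6 : P * (M - E) ≤ γ * (2 * M) := by
    have : M - E ≤ 2 * M := by linarith
    calc P * (M - E) ≤ P * (2 * M) := mul_le_mul_of_nonneg_left this hP0
      _ ≤ γ * (2 * M) := mul_le_mul_of_nonneg_right h4 (by linarith)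
  have h7 : 1 / 2 * (4 * M * γ) ≤ (1 - P) * (4 * M * γ) :=
    mul_le_mul_of_nonneg_right (by linarith) (by positivity)
  linarith

/-- mass of the pairs which use an old point or twice the same point -/
theorem bad_pairs {p : V → ℝ} (hp0 : ∀ v, 0 ≤ p v) (hp1 : ∑ v, p v = 1) {κ ω : ℝ}
    (hb : bad p κ ≤ ω) (hκ : 0 ≤ κ) (U : Finset V) :
    ∑ y, ∑ y', (if y = y' ∨ y ∈ U ∨ y' ∈ U then p y * p y' else 0) ≤
      (2 * U.card + 1) * κ + 3 * ω := by
  have hU : ∑ v ∈ U, p v ≤ U.card * κ + ω := by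
    calc ∑ v ∈ U, p v ≤ ∑ v ∈ U, (κ + if p v ≤ κ then 0 else p v) := by
          refine Finset.sum_le_sum fun v _ => ?_
          split_ifs with h <;> linarith
      _ = U.card * κ + ∑ v ∈ U, (if p v ≤ κ then 0 else p v) := by
          rw [Finset.sum_add_distrib, Finset.sum_const, nsmul_eq_mul]
      _ ≤ U.card * κ + bad p κ := by
          have : ∑ v ∈ U, (if p v ≤ κ then 0 else p v) ≤ bad p κ := by
            unfold bad
            refine Finset.sum_le_sum_of_subset_of_nonneg (Finset.subset_univ U) fun v _ _ => ?_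
            split_ifs
            · exact le_rfl
            · exact hp0 v
          linarith
      _ ≤ U.card * κ + ω := by linarith
  have hle : ∀ y y', (if y = y' ∨ y ∈ U ∨ y' ∈ U then p y * p y' else 0) ≤
      (if y = y' then p y * p y' else 0) + (if y ∈ U then p y else 0) * p y' +
        p y * (if y' ∈ U then p y' else 0) := by
    intro y y'
    have h2 : 0 ≤ p y * p y' := mul_nonneg (hp0 y) (hp0 y')
    by_cases h1 : y = y' <;> by_cases h3 : y ∈ U <;> by_cases h4 : y' ∈ U <;>
      simp [h1, h3, h4] <;> nlinarith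
  have e1 : ∑ y, ∑ y', (if y = y' then p y * p y' else 0) = ∑ y, p y * p y := by
    refine Finset.sum_congr rfl fun y _ => ?_
    simp
  have e2 : ∑ y, ∑ y', (if y ∈ U then p y else 0) * p y' = ∑ v ∈ U, p v := by
    rw [← Finset.sum_mul_sum, hp1, mul_one, ← Finset.sum_filter]
    congr 1
    ext v
    simp
  have e3 : ∑ y, ∑ y', p y * (if y' ∈ U then p y' else 0) = ∑ v ∈ U, p v := by
    rw [← Finset.sum_mul_sum, hp1, one_mul, ← Finset.sum_filter]
    congr 1
    ext v
    simp
  have hc := coll hp0 hp1 hp0 hb hκ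
  calc _ ≤ ∑ y, ∑ y', ((if y = y' then p y * p y' else 0) + (if y ∈ U then p y else 0) * p y' +
        p y * (if y' ∈ U then p y' else 0)) :=
        Finset.sum_le_sum fun y _ => Finset.sum_le_sum fun y' _ => hle y y'
    _ = ∑ y, p y * p y + ∑ v ∈ U, p v + ∑ v ∈ U, p v := by
        simp only [Finset.sum_add_distrib]
        rw [e1, e2, e3]
    _ ≤ _ := by nlinarith

end Pool.Agent.NH
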