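import Mathlib

/-!
# Discrepancy of spread distributions

`A` is a symmetric matrix with entries `1` and `-1` off the diagonal and `0` on it.  If every
`m`-set `X` has `|∑_{x, y ∈ X} A x y| ≤ η m²`, then the quadratic form of `A` is small at every
distribution which gives little mass to every point.
-/

set_option autoImplicit false
set_option linter.unusedSectionVars false

namespace Pool.Agent.NH

open Finset

variable {V : Type*} [Fintype V] [DecidableEq V]

/-- symmetric, zero on the diagonal, entries `1` and `-1` off the diagonal -/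
structure Col (A : V → V → ℝ) : Prop where
  symm : ∀ v w, A v w = A w v
  diag : ∀ v, A v v = 0
  off : ∀ v w, v ≠ w → A v w = 1 ∨ A v w = -1

/-- the bilinear form -/
def B (A : V → V → ℝ) (p q : V → ℝ) : ℝ := ∑ v, ∑ w, p v * q w * A v w

/-- mean of a row -/
def row (A : V → V → ℝ) (p : V → ℝ) (v : V) : ℝ := ∑ w, p w * A v w

/-- twice the discrepancy of `X` -/
def Q (A : V → V → ℝ) (X : Finset V) : ℝ := ∑ x ∈ X, ∑ y ∈ X, A x y

theorem Col.abs_le {A : V → V → ℝ} (hA : Col A) (v w : V) : |A v w| ≤ 1 := by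
  by_cases h : v = w
  · subst h
    rw [hA.diag]
    simp
  · rcases hA.off v w h with h | h <;> rw [h] <;> simp

theorem Col.neg {A : V → V → ℝ} (hA : Col A) : Col (fun v w => -A v w) := by
  refine ⟨fun v w => by simp only [hA.symm v w], fun v => by simp only [hA.diag]; simp, ?_⟩
  intro v w h
  rcases hA.off v w h with h | h
  · right
    simp only [h]
  · left
    simp only [h]
    norm_num

theorem B_eq (A : V → V → ℝ) (p q : V → ℝ) : B A p q = ∑ v, p v * row A q v := by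
  unfold B row
  refine Finset.sum_congr rfl fun v _ => ?_
  rw [Finset.mul_sum]
  refine Finset.sum_congr rfl fun w _ => ?_
  ring

theorem B_symm {A : V → V → ℝ} (hA : Col A) (p q : V → ℝ) : B A p q = B A q p := by
  unfold B
  rw [Finset.sum_comm]
  refine Finset.sum_congr rfl fun v _ => Finset.sum_congr rfl fun w _ => ?_
  rw [hA.symm]
  ring

theorem row_abs {A : V → V → ℝ} (hA : Col A) {p : V → ℝ} (hp : ∀ v, 0 ≤ p v)
    (h1 : ∑ v, p v ≤ 1) (v : V) : |row A p v| ≤ 1 := by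
  unfold row
  refine (Finset.abs_sum_le_sum_abs _ _).trans (le_trans ?_ h1)
  refine Finset.sum_le_sum fun w _ => ?_
  rw [abs_mul, abs_of_nonneg (hp w)]
  have := hA.abs_le v w
  have h2 := hp w
  nlinarith

theorem B_abs {A : V → V → ℝ} (hA : Col A) {p q : V → ℝ} {a b : ℝ} (hp : ∑ v, |p v| ≤ a)
    (hq : ∑ v, |q v| ≤ b) (ha : 0 ≤ a) : |B A p q| ≤ a * b := by
  unfold B
  have hb : 0 ≤ b := le_trans (Finset.sum_nonneg fun v _ => abs_nonneg _) hq
  have h1 : |∑ v, ∑ w, p v * q w * A v w| ≤ ∑ v, ∑ w, |p v| * |q w| := by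
    refine (Finset.abs_sum_le_sum_abs _ _).trans (Finset.sum_le_sum fun v _ => ?_)
    refine (Finset.abs_sum_le_sum_abs _ _).trans (Finset.sum_le_sum fun w _ => ?_)
    rw [abs_mul, abs_mul]
    have := hA.abs_le v w
    have h2 : 0 ≤ |p v| * |q w| := by positivity
    nlinarith
  refine h1.trans ?_
  have h2 : ∑ v, ∑ w, |p v| * |q w| = (∑ v, |p v|) * ∑ w, |q w| := by
    rw [Finset.sum_mul_sum]
  rw [h2]
  exact mul_le_mul hp hq (Finset.sum_nonneg fun v _ => abs_nonneg _) ha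

/-- the value which is kept by the choice of the points -/
noncomputable def G (A : V → V → ℝ) (r : V → ℝ) (m : ℝ) (X : Finset V) : ℝ :=
  Q A X + 2 * (m - X.card) * (∑ x ∈ X, row A r x) + (m - X.card) * (m - X.card - 1) * B A r r

/-- the value after `x` has been added -/
noncomputable def H (A : V → V → ℝ) (r : V → ℝ) (m : ℝ) (X : Finset V) (x : V) : ℝ :=
  Q A X + 2 * (∑ y ∈ X, A x y) + 2 * (m - X.card - 1) * ((∑ x ∈ X, row A r x) + row A r x) +
    (m - X.card - 1) * (m - X.card - 2) * B A r r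

theorem Q_insert {A : V → V → ℝ} (hA : Col A) {X : Finset V} {x : V} (hx : x ∉ X) :
    Q A (insert x X) = Q A X + 2 * ∑ y ∈ X, A x y := by
  unfold Q
  rw [Finset.sum_insert hx, Finset.sum_insert hx, hA.diag]
  have h1 : ∑ z ∈ X, ∑ y ∈ insert x X, A z y = ∑ z ∈ X, ∑ y ∈ X, A z y + ∑ z ∈ X, A x z := by
    rw [← Finset.sum_add_distrib]
    refine Finset.sum_congr rfl fun z _ => ?_
    rw [Finset.sum_insert hx, hA.symm z x]
    ring
  rw [h1]
  ring

theorem G_insert {A : V → V → ℝ} (hA : Col A) (r : V → ℝ) (m : ℝ) {X : Finset V} {x : V}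
    (hx : x ∉ X) : G A r m (insert x X) = H A r m X x := by
  unfold G H
  rw [Q_insert hA hx, Finset.sum_insert hx, Finset.card_insert_of_notMem hx]
  push_cast
  ring

theorem H_mean {A : V → V → ℝ} (hA : Col A) {r : V → ℝ} (m : ℝ) (X : Finset V)
    (h1 : ∑ v, r v = 1) : ∑ x, r x * H A r m X x = G A r m X := by
  have e1 : ∑ x, r x * ∑ y ∈ X, A x y = ∑ y ∈ X, row A r y := by
    simp only [Finset.mul_sum, row]
    rw [Finset.sum_comm]
    refine Finset.sum_congr rfl fun y _ => Finset.sum_congr rfl fun x _ => ?_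
    rw [hA.symm]
  have e2 : ∑ x, r x * row A r x = B A r r := (B_eq A r r).symm
  set C : ℝ := Q A X + 2 * (m - X.card - 1) * (∑ x ∈ X, row A r x) +
    (m - X.card - 1) * (m - X.card - 2) * B A r r with hC
  have e3 : ∀ x, r x * H A r m X x = r x * C + (2 * (r x * ∑ y ∈ X, A x y) +
      2 * (m - X.card - 1) * (r x * row A r x)) := by
    intro x
    rw [hC]
    unfold H
    ring
  rw [Finset.sum_congr rfl fun x _ => e3 x, Finset.sum_add_distrib, Finset.sum_add_distrib,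
    ← Finset.sum_mul, ← Finset.mul_sum, ← Finset.mul_sum, h1, e1, e2, hC]
  unfold G
  ring

theorem Q_abs {A : V → V → ℝ} (hA : Col A) (X : Finset V) : |Q A X| ≤ (X.card : ℝ) ^ 2 := by
  unfold Q
  have h : |∑ x ∈ X, ∑ y ∈ X, A x y| ≤ ∑ x ∈ X, ∑ y ∈ X, (1 : ℝ) := by
    refine (Finset.abs_sum_le_sum_abs _ _).trans (Finset.sum_le_sum fun v _ => ?_)
    exact (Finset.abs_sum_le_sum_abs _ _).trans (Finset.sum_le_sum fun w _ => hA.abs_le v w)
  refine h.trans (le_of_eq ?_)
  simp only [Finset.sum_const, nsmul_eq_mul, mul_one]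
  ring

theorem H_abs {A : V → V → ℝ} (hA : Col A) {r : V → ℝ} (h0 : ∀ v, 0 ≤ r v) (h1 : ∑ v, r v = 1)
    {m : ℕ} {X : Finset V} (hX : X.card < m) (x : V) : |H A r m X x| ≤ (m : ℝ) ^ 2 := by
  have hk : (X.card : ℝ) + 1 ≤ m := by exact_mod_cast hX
  have hk0 : (0 : ℝ) ≤ X.card := Nat.cast_nonneg _
  have q := Q_abs hA X
  have s : |∑ y ∈ X, A x y| ≤ X.card := by
    refine (Finset.abs_sum_le_sum_abs _ _).trans ?_
    calc ∑ y ∈ X, |A x y| ≤ ∑ y ∈ X, (1 : ℝ) := Finset.sum_le_sum fun w _ => hA.abs_le x w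
      _ = X.card := by simp
  have s2 : |∑ y ∈ X, row A r y| ≤ X.card := by
    refine (Finset.abs_sum_le_sum_abs _ _).trans ?_
    calc ∑ y ∈ X, |row A r y| ≤ ∑ y ∈ X, (1 : ℝ) :=
          Finset.sum_le_sum fun w _ => row_abs hA h0 h1.le w
      _ = X.card := by simp
  have s3 := row_abs hA h0 h1.le x
  have hsum : ∑ v, |r v| ≤ 1 := by
    refine le_trans (le_of_eq ?_) h1.le
    exact Finset.sum_congr rfl fun v _ => abs_of_nonneg (h0 v)
  have s4 : |B A r r| ≤ 1 := by
    have := B_abs hA hsum hsum zero_le_one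
    simpa using this
  unfold H
  set k : ℝ := (X.card : ℝ) with hkdef
  set M : ℝ := (m : ℝ) with hM
  rw [abs_le] at q s s2 s3 s4
  have hd : 0 ≤ M - k - 1 := by linarith
  have t1 : |2 * (M - k - 1) * ((∑ x ∈ X, row A r x) + row A r x)| ≤ 2 * (M - k - 1) * (k + 1) := by
    rw [abs_mul, abs_of_nonneg (by linarith : (0 : ℝ) ≤ 2 * (M - k - 1))]
    refine mul_le_mul_of_nonneg_left ?_ (by linarith)
    rw [abs_le]
    constructor <;> linarith [s2.1, s2.2, s3.1, s3.2]
  have hnat : (X.card : ℝ) + 1 = m ∨ (X.card : ℝ) + 2 ≤ m := by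
    rcases Nat.eq_or_lt_of_le (Nat.succ_le_of_lt hX) with h | h
    · left
      exact_mod_cast h
    · right
      exact_mod_cast h
  have t2 : |(M - k - 1) * (M - k - 2) * B A r r| ≤ (M - k - 1) * (M - k - 1) := by
    rcases hnat with h | h
    · have : M - k - 1 = 0 := by rw [hM, hkdef]; linarith
      rw [this]
      simp
    · have h2 : 0 ≤ M - k - 2 := by rw [hM, hkdef]; linarith
      rw [abs_mul, abs_of_nonneg (mul_nonneg hd h2)]
      have : |B A r r| ≤ 1 := abs_le.2 ⟨s4.1, s4.2⟩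
      have h3 : (M - k - 1) * (M - k - 2) ≤ (M - k - 1) * (M - k - 1) :=
        mul_le_mul_of_nonneg_left (by linarith) hd
      nlinarith [mul_nonneg hd h2, abs_nonneg (B A r r)]
  rw [abs_le] at t1 t2 ⊢
  constructor
  · nlinarith [t1.1, t2.1, q.1, s.1]
  · nlinarith [t1.2, t2.2, q.2, s.2]

theorem G_abs {A : V → V → ℝ} (hA : Col A) {r : V → ℝ} (h0 : ∀ v, 0 ≤ r v) (h1 : ∑ v, r v = 1)
    {m : ℕ} {X : Finset V} (hX : X.card < m) : |G A r m X| ≤ (m : ℝ) ^ 2 := by
  rw [← H_mean hA m X h1]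
  refine (Finset.abs_sum_le_sum_abs _ _).trans ?_
  calc ∑ x, |r x * H A r m X x| ≤ ∑ x, r x * (m : ℝ) ^ 2 := by
        refine Finset.sum_le_sum fun x _ => ?_
        rw [abs_mul, abs_of_nonneg (h0 x)]
        exact mul_le_mul_of_nonneg_left (H_abs hA h0 h1 hX x) (h0 x)
    _ = (m : ℝ) ^ 2 := by rw [← Finset.sum_mul, h1, one_mul]

theorem greedy {A : V → V → ℝ} (hA : Col A) {r : V → ℝ} {κ : ℝ} (h0 : ∀ v, 0 ≤ r v)
    (hκ : ∀ v, r v ≤ κ) (hκ0 : 0 < κ) (h1 : ∑ v, r v = 1) {m : ℕ} (hm : 1 ≤ m)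
    (hmκ : m * κ ≤ 1 / 2) : ∀ k, k ≤ m → ∃ X : Finset V, X.card = k ∧
      (m : ℝ) * (m - 1) * B A r r - k * (5 * (m : ℝ) ^ 3 * κ) ≤ G A r m X := by
  intro k
  induction k with
  | zero =>
    intro _
    refine ⟨∅, rfl, ?_⟩
    simp [G, Q]
  | succ k ih =>
    intro hk
    obtain ⟨X, hX, hG⟩ := ih (by omega)
    have hXm : X.card < m := by omega
    have hm1 : (1 : ℝ) ≤ m := by exact_mod_cast hm
    by_contra hcon
    push Not at hcon
    have hcon' : ∀ x, x ∉ X → H A r m X x < G A r m X - 5 * (m : ℝ) ^ 3 * κ := by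
      intro x hx
      have := hcon (insert x X) (by rw [Finset.card_insert_of_notMem hx, hX])
      rw [G_insert hA r m hx] at this
      push_cast at this
      linarith
    have hmean := H_mean hA (m : ℝ) X h1
    have hsplit : ∑ x, r x * H A r m X x = ∑ x ∈ X, r x * H A r m X x +
        ∑ x ∈ univ \ X, r x * H A r m X x := by
      rw [add_comm, Finset.sum_sdiff (Finset.subset_univ X)]
    have hsplit1 : ∑ x ∈ X, r x + ∑ x ∈ univ \ X, r x = 1 := by
      rw [add_comm, Finset.sum_sdiff (Finset.subset_univ X), h1]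
    have hρ : ∑ x ∈ X, r x ≤ k * κ := by
      calc ∑ x ∈ X, r x ≤ ∑ x ∈ X, κ := Finset.sum_le_sum fun x _ => hκ x
        _ = k * κ := by rw [Finset.sum_const, hX, nsmul_eq_mul]
    have hkm : (k : ℝ) ≤ m := by
      have : k ≤ m := by omega
      exact_mod_cast this
    have hρ' : ∑ x ∈ X, r x ≤ m * κ := hρ.trans (mul_le_mul_of_nonneg_right hkm hκ0.le)
    have hρ0 : 0 ≤ ∑ x ∈ X, r x := Finset.sum_nonneg fun x _ => h0 x
    set ρ := ∑ x ∈ X, r x with hρdef
    have hA1 : ∑ x ∈ X, r x * H A r m X x ≤ ρ * (m : ℝ) ^ 2 := by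
      rw [hρdef, Finset.sum_mul]
      refine Finset.sum_le_sum fun x _ => mul_le_mul_of_nonneg_left ?_ (h0 x)
      exact (abs_le.1 (H_abs hA h0 h1 hXm x)).2
    have hA2 : ∑ x ∈ univ \ X, r x * H A r m X x ≤
        (1 - ρ) * (G A r m X - 5 * (m : ℝ) ^ 3 * κ) := by
      have : 1 - ρ = ∑ x ∈ univ \ X, r x := by linarith
      rw [this, Finset.sum_mul]
      refine Finset.sum_le_sum fun x hx => mul_le_mul_of_nonneg_left ?_ (h0 x)
      exact (hcon' x (Finset.mem_sdiff.1 hx).2).le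
    have hGabs := (abs_le.1 (G_abs hA h0 h1 hXm)).1
    rw [hsplit] at hmean
    have hm2 : (0 : ℝ) < (m : ℝ) ^ 3 * κ := by positivity
    have hm3 : ρ * (m : ℝ) ^ 2 ≤ (m : ℝ) ^ 3 * κ := by
      calc ρ * (m : ℝ) ^ 2 ≤ m * κ * (m : ℝ) ^ 2 :=
            mul_le_mul_of_nonneg_right hρ' (by positivity)
        _ = (m : ℝ) ^ 3 * κ := by ring
    have hρ2 : ρ ≤ 1 / 2 := hρ'.trans hmκ
    have hρG : -(ρ * (m : ℝ) ^ 2) ≤ ρ * G A r m X := by
      have := mul_le_mul_of_nonneg_left hGabs hρ0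
      linarith
    nlinarith [mul_nonneg hρ0 hm2.le, mul_le_mul_of_nonneg_right hρ2 hm2.le]

/-- every `m`-set has small discrepancy -/
def Hyp (A : V → V → ℝ) (m : ℕ) (η : ℝ) : Prop := ∀ X : Finset V, X.card = m → |Q A X| ≤ η * m ^ 2

theorem spread_one {A : V → V → ℝ} (hA : Col A) {m : ℕ} (hm : 2 ≤ m) {η : ℝ}
    (hH : Hyp A m η) {r : V → ℝ} {κ : ℝ} (h0 : ∀ v, 0 ≤ r v)
    (hκ : ∀ v, r v ≤ κ) (hκ0 : 0 < κ) (h1 : ∑ v, r v = 1) 
    (hmκ : m * κ ≤ 1 / 2) : B A r r ≤ 2 * η + 10 * (m : ℝ) ^ 2 * κ := by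
  obtain ⟨X, hX, hG⟩ := greedy hA h0 hκ hκ0 h1 (by omega) hmκ m le_rfl
  have e : G A r m X = Q A X := by
    unfold G
    rw [hX]
    ring
  rw [e] at hG
  have hQ := (abs_le.1 (hH X hX)).2
  have hm2 : (2 : ℝ) ≤ m := by exact_mod_cast hm
  by_cases hneg : B A r r ≤ 0
  · have : 0 ≤ η := by
      have h3 := (abs_nonneg _).trans (hH X hX)
      have h4 : (0 : ℝ) < (m : ℝ) ^ 2 := by positivity
      by_contra hc
      push Not at hc
      nlinarith
    have : 0 ≤ 10 * (m : ℝ) ^ 2 * κ := by positivity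
    linarith
  · push Not at hneg
    have h5 : (m : ℝ) ^ 2 / 2 * B A r r ≤ m * (m - 1) * B A r r := by
      refine mul_le_mul_of_nonneg_right ?_ hneg.le
      nlinarith
    have h6 : (m : ℝ) ^ 2 / 2 * B A r r ≤ (m : ℝ) ^ 2 / 2 * (2 * η + 10 * (m : ℝ) ^ 2 * κ) := by
      have : (m : ℝ) * (5 * (m : ℝ) ^ 3 * κ) = 5 * (m : ℝ) ^ 4 * κ := by ring
      rw [this] at hG
      nlinarith
    have h7 : (0 : ℝ) < (m : ℝ) ^ 2 / 2 := by positivity
    exact le_of_mul_le_mul_left h6 h7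

theorem B_neg (A : V → V → ℝ) (p q : V → ℝ) : B (fun v w => -A v w) p q = -B A p q := by
  unfold B
  rw [← Finset.sum_neg_distrib]
  refine Finset.sum_congr rfl fun v _ => ?_
  rw [← Finset.sum_neg_distrib]
  refine Finset.sum_congr rfl fun w _ => ?_
  ring

theorem Hyp.neg {A : V → V → ℝ} {m : ℕ} {η : ℝ} (hH : Hyp A m η) :
    Hyp (fun v w => -A v w) m η := by
  intro X hX
  have : Q (fun v w => -A v w) X = -Q A X := by
    unfold Q
    rw [← Finset.sum_neg_distrib]
    refine Finset.sum_congr rfl fun v _ => ?_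
    rw [← Finset.sum_neg_distrib]
  rw [this, abs_neg]
  exact hH X hX

/-- the quadratic form is at most `ν` at all spread distributions of mass at most `1` -/
def Spr (A : V → V → ℝ) (κ ν : ℝ) : Prop :=
  ∀ r : V → ℝ, (∀ v, 0 ≤ r v) → (∀ v, r v ≤ κ) → ∑ v, r v ≤ 1 → |B A r r| ≤ ν

theorem spr_of_hyp {A : V → V → ℝ} (hA : Col A) {m : ℕ} (hm : 2 ≤ m) {η : ℝ} (hη0 : 0 < η)
    (hη1 : η ≤ 1) (hH : Hyp A m η) {κ : ℝ} (hκ0 : 0 < κ) (hκ : 10 * (m : ℝ) ^ 2 * κ ≤ η ^ 2) :
    Spr A κ (3 * η) := by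
  intro r h0 hr h1
  set ρ := ∑ v, r v with hρ
  have hρ0 : 0 ≤ ρ := Finset.sum_nonneg fun v _ => h0 v
  have hm2 : (2 : ℝ) ≤ m := by exact_mod_cast hm
  by_cases hs : ρ ≤ η
  · have hsum : ∑ v, |r v| ≤ ρ := by
      rw [hρ]
      exact (Finset.sum_congr rfl fun v _ => abs_of_nonneg (h0 v)).le
    have := B_abs hA hsum hsum hρ0
    nlinarith
  · push Not at hs
    have hρpos : 0 < ρ := hη0.trans hs
    set s : V → ℝ := fun v => r v / ρ with hsdef
    have hs0 : ∀ v, 0 ≤ s v := fun v => div_nonneg (h0 v) hρ0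
    have hsκ : ∀ v, s v ≤ κ / η := by
      intro v
      have h2 : r v / ρ ≤ κ / ρ := div_le_div_of_nonneg_right (hr v) hρ0
      refine h2.trans ?_
      exact div_le_div_of_nonneg_left hκ0.le hη0 hs.le
    have hs1 : ∑ v, s v = 1 := by
      rw [hsdef, ← Finset.sum_div, ← hρ]
      exact div_self hρpos.ne'
    have hB : B A r r = ρ ^ 2 * B A s s := by
      unfold B
      rw [Finset.mul_sum]
      refine Finset.sum_congr rfl fun v _ => ?_
      rw [Finset.mul_sum]
      refine Finset.sum_congr rfl fun w _ => ?_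
      simp only [hsdef]
      field_simp
    have hκ' : 0 < κ / η := by positivity
    have e1 : 10 * (m : ℝ) ^ 2 * (κ / η) ≤ η := by
      rw [mul_div_assoc', div_le_iff₀ hη0]
      nlinarith
    have e2 : m * (κ / η) ≤ 1 / 2 := by
      nlinarith
    have b1 := spread_one hA hm hH hs0 hsκ hκ' hs1 e2
    have b2 := spread_one hA.neg hm hH.neg hs0 hsκ hκ' hs1 e2
    rw [B_neg] at b2
    have b3 : |B A s s| ≤ 3 * η := by
      rw [abs_le]
      constructor <;> linarith
    rw [hB, abs_mul, abs_of_nonneg (sq_nonneg ρ)]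
    have : ρ ^ 2 ≤ 1 := by nlinarith
    nlinarith [abs_nonneg (B A s s)]

theorem B_add_left (A : V → V → ℝ) (p q r : V → ℝ) :
    B A (fun v => p v + q v) r = B A p r + B A q r := by
  unfold B
  rw [← Finset.sum_add_distrib]
  refine Finset.sum_congr rfl fun v _ => ?_
  rw [← Finset.sum_add_distrib]
  refine Finset.sum_congr rfl fun w _ => ?_
  ring

theorem B_add_right (A : V → V → ℝ) (p q r : V → ℝ) :
    B A r (fun v => p v + q v) = B A r p + B A r q := by
  unfold B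
  rw [← Finset.sum_add_distrib]
  refine Finset.sum_congr rfl fun v _ => ?_
  rw [← Finset.sum_add_distrib]
  refine Finset.sum_congr rfl fun w _ => ?_
  ring

theorem spr_bilin {A : V → V → ℝ} (hA : Col A) {κ ν : ℝ} (hS : Spr A κ ν) {p q : V → ℝ}
    (hp0 : ∀ v, 0 ≤ p v) (hpκ : ∀ v, p v ≤ κ) (hp1 : ∑ v, p v ≤ 1)
    (hq0 : ∀ v, 0 ≤ q v) (hqκ : ∀ v, q v ≤ κ) (hq1 : ∑ v, q v ≤ 1) : |B A p q| ≤ 3 * ν := by
  have h1 := hS p hp0 hpκ hp1
  have h2 := hS q hq0 hqκ hq1
  have h3 := hS (fun v => (p v + q v) / 2) (fun v => by linarith [hp0 v, hq0 v])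
    (fun v => by linarith [hpκ v, hqκ v]) (by
      rw [← Finset.sum_div, Finset.sum_add_distrib]
      linarith)
  have e : B A (fun v => (p v + q v) / 2) (fun v => (p v + q v) / 2) =
      (B A p p + 2 * B A p q + B A q q) / 4 := by
    have e1 : B A (fun v => (p v + q v) / 2) (fun v => (p v + q v) / 2) =
        B A (fun v => p v + q v) (fun v => p v + q v) / 4 := by
      unfold B
      rw [Finset.sum_div]
      refine Finset.sum_congr rfl fun v _ => ?_
      rw [Finset.sum_div]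
      refine Finset.sum_congr rfl fun w _ => ?_
      ring
    rw [e1, B_add_left, B_add_right, B_add_right, B_symm hA q p]
    ring
  rw [e] at h3
  rw [abs_le] at h1 h2 h3 ⊢
  constructor <;> linarith [h1.1, h1.2, h2.1, h2.2, h3.1, h3.2]

/-- signed version -/
theorem spr_signed {A : V → V → ℝ} (hA : Col A) {κ ν : ℝ} (hS : Spr A κ ν) {p q f : V → ℝ}
    (hp0 : ∀ v, 0 ≤ p v) (hpκ : ∀ v, p v ≤ κ) (hp1 : ∑ v, p v ≤ 1)
    (hq0 : ∀ v, 0 ≤ q v) (hqκ : ∀ v, q v ≤ κ) (hq1 : ∑ v, q v ≤ 1) (hf : ∀ v, |f v| ≤ 1) :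
    |B A (fun v => p v * f v) q| ≤ 6 * ν := by
  have e : (fun v => p v * f v) = fun v => p v * max (f v) 0 + (-1) * (p v * max (-f v) 0) := by
    funext v
    rcases le_total 0 (f v) with h | h
    · rw [max_eq_left h, max_eq_right (by linarith)]
      ring
    · rw [max_eq_right h, max_eq_left (by linarith)]
      ring
  have hneg : B A (fun v => (-1) * (p v * max (-f v) 0)) q = -B A (fun v => p v * max (-f v) 0) q := by
    unfold B
    rw [← Finset.sum_neg_distrib]
    refine Finset.sum_congr rfl fun v _ => ?_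
    rw [← Finset.sum_neg_distrib]
    refine Finset.sum_congr rfl fun w _ => ?_
    ring
  have key : ∀ g : V → ℝ, (∀ v, 0 ≤ g v) → (∀ v, g v ≤ 1) → |B A (fun v => p v * g v) q| ≤ 3 * ν := by
    intro g hg0 hg1
    have hle : ∀ v, p v * g v ≤ p v := fun v => by nlinarith [hp0 v, hg1 v]
    refine spr_bilin hA hS (fun v => mul_nonneg (hp0 v) (hg0 v)) (fun v => (hle v).trans (hpκ v))
      ((Finset.sum_le_sum fun v _ => hle v).trans hp1) hq0 hqκ hq1
  have k1 := key (fun v => max (f v) 0) (fun v => le_max_right _ _)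
    (fun v => max_le (abs_le.1 (hf v)).2 zero_le_one)
  have k2 := key (fun v => max (-f v) 0) (fun v => le_max_right _ _)
    (fun v => max_le (by linarith [(abs_le.1 (hf v)).1]) zero_le_one)
  rw [e, B_add_left, hneg]
  rw [abs_le] at k1 k2 ⊢
  constructor <;> linarith [k1.1, k1.2, k2.1, k2.2]

/-- mass above `κ` -/
noncomputable def bad (p : V → ℝ) (κ : ℝ) : ℝ := ∑ v, if p v ≤ κ then 0 else p v

theorem sq_row {A : V → V → ℝ} (hA : Col A) {κ ν ω : ℝ} (hS : Spr A κ ν) {p q : V → ℝ}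
    (hp0 : ∀ v, 0 ≤ p v) (hp1 : ∑ v, p v = 1) (hpb : bad p κ ≤ ω)
    (hq0 : ∀ v, 0 ≤ q v) (hq1 : ∑ v, q v = 1) (hqb : bad q κ ≤ ω) (hκ : 0 ≤ κ) :
    ∑ v, p v * row A q v ^ 2 ≤ 6 * ν + 2 * ω := by
  set pg : V → ℝ := fun v => if p v ≤ κ then p v else 0 with hpg
  set pb : V → ℝ := fun v => if p v ≤ κ then 0 else p v with hpb'
  set qg : V → ℝ := fun v => if q v ≤ κ then q v else 0 with hqg
  set qb : V → ℝ := fun v => if q v ≤ κ then 0 else q v with hqb'
  have ep : ∀ v, p v = pg v + pb v := by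
    intro v
    simp only [hpg, hpb']
    split_ifs <;> simp
  have eq : ∀ v, q v = qg v + qb v := by
    intro v
    simp only [hqg, hqb']
    split_ifs <;> simp
  have hpg0 : ∀ v, 0 ≤ pg v := fun v => by simp only [hpg]; split_ifs; exacts [hp0 v, le_rfl]
  have hpb0 : ∀ v, 0 ≤ pb v := fun v => by simp only [hpb']; split_ifs; exacts [le_rfl, hp0 v]
  have hqg0 : ∀ v, 0 ≤ qg v := fun v => by simp only [hqg]; split_ifs; exacts [hq0 v, le_rfl]
  have hqb0 : ∀ v, 0 ≤ qb v := fun v => by simp only [hqb']; split_ifs; exacts [le_rfl, hq0 v]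
  have hpgκ : ∀ v, pg v ≤ κ := fun v => by simp only [hpg]; split_ifs with h; exacts [h, hκ]
  have hqgκ : ∀ v, qg v ≤ κ := fun v => by simp only [hqg]; split_ifs with h; exacts [h, hκ]
  have hpg1 : ∑ v, pg v ≤ 1 := by
    rw [← hp1]
    exact Finset.sum_le_sum fun v _ => by linarith [ep v, hpb0 v]
  have hqg1 : ∑ v, qg v ≤ 1 := by
    rw [← hq1]
    exact Finset.sum_le_sum fun v _ => by linarith [eq v, hqb0 v]
  set f : V → ℝ := fun v => row A q v with hf
  have hf1 : ∀ v, |f v| ≤ 1 := fun v => row_abs hA hq0 hq1.le v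
  have e1 : ∑ v, p v * row A q v ^ 2 = B A (fun v => p v * f v) q := by
    rw [B_eq]
    refine Finset.sum_congr rfl fun v _ => ?_
    simp only [hf]
    ring
  have e2 : (fun v => p v * f v) = fun v => pg v * f v + pb v * f v := by
    funext v
    rw [ep v]
    ring
  have e3 : q = fun v => qg v + qb v := funext eq
  have e4 : B A (fun v => p v * f v) q = B A (fun v => pg v * f v) qg +
      B A (fun v => pb v * f v) qg + B A (fun v => p v * f v) qb := by
    calc B A (fun v => p v * f v) q = B A (fun v => p v * f v) (fun v => qg v + qb v) := by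
          rw [← e3]
      _ = B A (fun v => p v * f v) qg + B A (fun v => p v * f v) qb := B_add_right _ _ _ _
      _ = _ := by
          rw [show B A (fun v => p v * f v) qg = B A (fun v => pg v * f v + pb v * f v) qg by
            rw [← e2], B_add_left]
  have k1 := spr_signed hA hS hpg0 hpgκ hpg1 hqg0 hqgκ hqg1 hf1
  have abs_mass : ∀ (s : V → ℝ) (hs : ∀ v, 0 ≤ s v), ∑ v, |s v * f v| ≤ ∑ v, s v := by
    intro s hs
    refine Finset.sum_le_sum fun v _ => ?_
    rw [abs_mul, abs_of_nonneg (hs v)]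
    nlinarith [hs v, hf1 v]
  have k2 : |B A (fun v => pb v * f v) qg| ≤ ω * 1 := by
    refine B_abs hA ((abs_mass pb hpb0).trans hpb) ?_ ?_
    · refine le_trans (le_of_eq ?_) hqg1
      exact Finset.sum_congr rfl fun v _ => abs_of_nonneg (hqg0 v)
    · exact le_trans (Finset.sum_nonneg fun v _ => hpb0 v) hpb
  have k3 : |B A (fun v => p v * f v) qb| ≤ 1 * ω := by
    refine B_abs hA ((abs_mass p hp0).trans hp1.le) ?_ zero_le_one
    refine le_trans (le_of_eq ?_) hqb
    exact Finset.sum_congr rfl fun v _ => abs_of_nonneg (hqb0 v)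
  rw [e1, e4]
  rw [abs_le] at k1 k2 k3
  linarith [k1.2, k2.2, k3.2]

/-- collision mass -/
theorem coll {κ ω : ℝ} {p q : V → ℝ}
    (hp0 : ∀ v, 0 ≤ p v) (hp1 : ∑ v, p v = 1)
    (hq0 : ∀ v, 0 ≤ q v) (hqb : bad q κ ≤ ω) (hκ : 0 ≤ κ) :
    ∑ v, p v * q v ≤ κ + ω := by
  have hple : ∀ v, p v ≤ 1 := by
    intro v
    rw [← hp1]
    exact Finset.single_le_sum (fun w _ => hp0 w) (Finset.mem_univ v)
  calc ∑ v, p v * q v ≤ ∑ v, (p v * κ + if q v ≤ κ then 0 else q v) := by
        refine Finset.sum_le_sum fun v _ => ?_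
        split_ifs with h
        · have := mul_le_mul_of_nonneg_left h (hp0 v)
          linarith
        · have h1 := mul_le_mul_of_nonneg_right (hple v) (hq0 v)
          have h2 : 0 ≤ p v * κ := mul_nonneg (hp0 v) hκ
          linarith
    _ = κ + bad q κ := by rw [Finset.sum_add_distrib, ← Finset.sum_mul, hp1, one_mul]; rfl
    _ ≤ κ + ω := by linarith

end Pool.Agent.NH
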