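import Pool.Agent.Lib_helper16.NH.Quad

/-!
# One step: two new points from the same distribution

For weights `W` and `π = W / ∑ W`, the sum of the weights after a tilt by the difference of two
rows `y`, `y'` chosen independently from `p` has mean at most `exp (θ²) ∑ W`, and its inverse has
mean at most `exp (-θ² (1 - ε)) / ∑ W` if `π` and `p` are spread.
-/

set_option autoImplicit false
set_option linter.unusedSectionVars false

namespace Pool.Agent.NH

open Finset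

variable {V : Type*} [Fintype V] [DecidableEq V]

theorem exp_tern (θ : ℝ) {a : ℝ} (h : a = 1 ∨ a = -1 ∨ a = 0) :
    Real.exp (θ * a) = 1 + a * Real.sinh θ + a ^ 2 * (Real.cosh θ - 1) := by
  rcases h with h | h | h
  · rw [h, mul_one, ← Real.cosh_add_sinh]
    ring
  · rw [h]
    have : θ * -1 = -θ := by ring
    rw [this, ← Real.cosh_add_sinh, Real.cosh_neg, Real.sinh_neg]
    ring
  · rw [h]
    simp

theorem Col.tern {A : V → V → ℝ} (hA : Col A) (v w : V) : A v w = 1 ∨ A v w = -1 ∨ A v w = 0 := by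
  by_cases h : v = w
  · right; right
    rw [h, hA.diag]
  · rcases hA.off v w h with h | h
    · exact Or.inl h
    · exact Or.inr (Or.inl h)

theorem Col.sq {A : V → V → ℝ} (hA : Col A) (v w : V) : A v w ^ 2 = if w = v then 0 else 1 := by
  by_cases h : w = v
  · rw [if_pos h, h, hA.diag]
    norm_num
  · rw [if_neg h]
    rcases hA.off v w (Ne.symm h) with h | h <;> rw [h] <;> norm_num

theorem mean_exp {A : V → V → ℝ} (hA : Col A) {p : V → ℝ} (hp1 : ∑ v, p v = 1) (θ : ℝ) (v : V) :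
    ∑ y, p y * Real.exp (θ * A v y) =
      1 + row A p v * Real.sinh θ + (1 - p v) * (Real.cosh θ - 1) := by
  have e : ∀ y, p y * Real.exp (θ * A v y) = p y + (p y * A v y) * Real.sinh θ +
      (p y * if y = v then 0 else 1) * (Real.cosh θ - 1) := by
    intro y
    rw [exp_tern θ (hA.tern v y), hA.sq v y]
    ring
  rw [Finset.sum_congr rfl fun y _ => e y, Finset.sum_add_distrib, Finset.sum_add_distrib,
    ← Finset.sum_mul, ← Finset.sum_mul, hp1]
  have e2 : ∑ y, (p y * if y = v then (0 : ℝ) else 1) = 1 - p v := by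
    have : ∀ y, (p y * if y = v then (0 : ℝ) else 1) = p y - if y = v then p y else 0 := by
      intro y
      split_ifs <;> simp
    rw [Finset.sum_congr rfl fun y _ => this y, Finset.sum_sub_distrib, hp1]
    simp
  rw [e2]
  rfl

theorem mean_pair {A : V → V → ℝ} (hA : Col A) {p : V → ℝ} (hp1 : ∑ v, p v = 1) (θ : ℝ) (v : V) :
    ∑ y, ∑ y', p y * p y' * Real.exp (θ * (A v y - A v y')) =
      (1 + (1 - p v) * (Real.cosh θ - 1)) ^ 2 - row A p v ^ 2 * Real.sinh θ ^ 2 := by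
  have e : ∑ y, ∑ y', p y * p y' * Real.exp (θ * (A v y - A v y')) =
      (∑ y, p y * Real.exp (θ * A v y)) * ∑ y', p y' * Real.exp (-θ * A v y') := by
    rw [Finset.sum_mul_sum]
    refine Finset.sum_congr rfl fun y _ => Finset.sum_congr rfl fun y' _ => ?_
    have : θ * (A v y - A v y') = θ * A v y + -θ * A v y' := by ring
    rw [this, Real.exp_add]
    ring
  rw [e, mean_exp hA hp1, mean_exp hA hp1, Real.cosh_neg, Real.sinh_neg]
  ring

theorem swap_sum (p W : V → ℝ) (A : V → V → ℝ) (θ : ℝ) :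
    ∑ y, ∑ y', p y * p y' * ∑ v, W v * Real.exp (θ * (A v y - A v y')) =
      ∑ v, W v * ∑ y, ∑ y', p y * p y' * Real.exp (θ * (A v y - A v y')) := by
  calc ∑ y, ∑ y', p y * p y' * ∑ v, W v * Real.exp (θ * (A v y - A v y'))
      = ∑ y, ∑ v, ∑ y', p y * p y' * (W v * Real.exp (θ * (A v y - A v y'))) := by
        refine Finset.sum_congr rfl fun y _ => ?_
        rw [Finset.sum_comm]
        refine Finset.sum_congr rfl fun y' _ => ?_
        rw [Finset.mul_sum]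
    _ = ∑ v, ∑ y, ∑ y', p y * p y' * (W v * Real.exp (θ * (A v y - A v y'))) :=
        Finset.sum_comm
    _ = _ := by
        refine Finset.sum_congr rfl fun v _ => ?_
        rw [Finset.mul_sum]
        refine Finset.sum_congr rfl fun y _ => ?_
        rw [Finset.mul_sum]
        refine Finset.sum_congr rfl fun y' _ => ?_
        ring

theorem prob_le {p : V → ℝ} (hp0 : ∀ v, 0 ≤ p v) (hp1 : ∑ v, p v = 1) (v : V) : p v ≤ 1 := by
  rw [← hp1]
  exact Finset.single_le_sum (fun w _ => hp0 w) (Finset.mem_univ v)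

theorem step_up {A : V → V → ℝ} (hA : Col A) {p W : V → ℝ} (hp0 : ∀ v, 0 ≤ p v)
    (hp1 : ∑ v, p v = 1) (hW : ∀ v, 0 ≤ W v) (θ : ℝ) :
    ∑ y, ∑ y', p y * p y' * ∑ v, W v * Real.exp (θ * (A v y - A v y')) ≤
      Real.exp (θ ^ 2) * ∑ v, W v := by
  rw [swap_sum, Finset.mul_sum]
  refine Finset.sum_le_sum fun v _ => ?_
  rw [mean_pair hA hp1, mul_comm (Real.exp _)]
  refine mul_le_mul_of_nonneg_left ?_ (hW v)
  have h1 : Real.cosh θ ≤ Real.exp (θ ^ 2 / 2) := Real.cosh_le_exp_half_sq θ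
  have h2 : Real.exp (θ ^ 2) = Real.exp (θ ^ 2 / 2) ^ 2 := by
    rw [← Real.exp_nat_mul]
    congr 1
    push_cast
    ring
  have h3 : 1 ≤ Real.cosh θ := Real.one_le_cosh θ
  have h4 := prob_le hp0 hp1 v
  have h5 := hp0 v
  have h6 : 1 + (1 - p v) * (Real.cosh θ - 1) ≤ Real.cosh θ := by nlinarith
  have h7 : 0 ≤ 1 + (1 - p v) * (Real.cosh θ - 1) := by nlinarith
  have h8 : 0 ≤ row A p v ^ 2 * Real.sinh θ ^ 2 := by positivity
  rw [h2]
  nlinarith

theorem mean_low {A : V → V → ℝ} (hA : Col A) {p : V → ℝ} (hp0 : ∀ v, 0 ≤ p v)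
    (hp1 : ∑ v, p v = 1) {θ : ℝ} (h0 : 0 ≤ θ) (h1 : θ ≤ 1 / 4) (v : V) :
    1 + θ ^ 2 * (1 - p v - 2 * row A p v ^ 2) ≤
      ∑ y, ∑ y', p y * p y' * Real.exp (θ * (A v y - A v y')) := by
  rw [mean_pair hA hp1]
  have hc : 1 + θ ^ 2 / 2 ≤ Real.cosh θ := by
    have a1 : Real.cosh θ = Real.cosh (2 * (θ / 2)) := by congr 1; ring
    have a2 := Real.cosh_sq (θ / 2)
    have a3 : θ / 2 ≤ Real.sinh (θ / 2) := Real.self_le_sinh_iff.2 (by linarith)
    rw [a1, Real.cosh_two_mul]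
    nlinarith
  have hs : Real.sinh θ ^ 2 ≤ 2 * θ ^ 2 := by
    have e := Real.cosh_sq θ
    have h2 : Real.cosh θ ≤ Real.exp (θ ^ 2 / 2) := Real.cosh_le_exp_half_sq θ
    have h3 : Real.exp (θ ^ 2 / 2) ^ 2 = Real.exp (θ ^ 2) := by
      rw [← Real.exp_nat_mul]
      congr 1
      push_cast
      ring
    have h4 : Real.exp (θ ^ 2) ≤ 1 + θ ^ 2 + (θ ^ 2) ^ 2 := by
      have h5 : |θ ^ 2| ≤ 1 := by
        rw [abs_of_nonneg (sq_nonneg θ)]
        nlinarith
      have := Real.abs_exp_sub_one_sub_id_le h5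
      rw [abs_le] at this
      linarith [this.2]
    have h6 : Real.cosh θ ^ 2 ≤ Real.exp (θ ^ 2 / 2) ^ 2 :=
      pow_le_pow_left₀ (Real.cosh_pos θ).le h2 2
    have h7 : (θ ^ 2) ^ 2 ≤ θ ^ 2 := by
      have : θ ^ 2 ≤ 1 := by nlinarith
      nlinarith [sq_nonneg θ]
    nlinarith
  have h4 := prob_le hp0 hp1 v
  have h5 := hp0 v
  have h8 : 0 ≤ row A p v ^ 2 := by positivity
  have h9 : θ ^ 2 / 2 * (1 - p v) ≤ (1 - p v) * (Real.cosh θ - 1) := by nlinarith
  have h10 : 0 ≤ (1 - p v) * (Real.cosh θ - 1) := by nlinarith [sq_nonneg θ]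
  nlinarith

/-- the ratio of the two sums -/
noncomputable def R (A : V → V → ℝ) (π : V → ℝ) (θ : ℝ) (y y' : V) : ℝ :=
  ∑ v, π v * Real.exp (θ * (A v y - A v y'))

theorem R_ge {A : V → V → ℝ} (hA : Col A) {π : V → ℝ} (hπ0 : ∀ v, 0 ≤ π v)
    (hπ1 : ∑ v, π v = 1) {θ : ℝ} (h0 : 0 ≤ θ) (h1 : θ ≤ 1 / 4) (y y' : V) : 1 / 2 ≤ R A π θ y y' := by
  unfold R
  calc (1 : ℝ) / 2 = ∑ v, π v * (1 / 2) := by rw [← Finset.sum_mul, hπ1, one_mul]
    _ ≤ _ := by
      refine Finset.sum_le_sum fun v _ => mul_le_mul_of_nonneg_left ?_ (hπ0 v)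
      have a1 := abs_le.1 (hA.abs_le v y)
      have a2 := abs_le.1 (hA.abs_le v y')
      have h2 : -(1 / 2) ≤ θ * (A v y - A v y') := by nlinarith [a1.1, a2.2]
      have := Real.add_one_le_exp (θ * (A v y - A v y'))
      linarith

theorem R_sub {A : V → V → ℝ} (hA : Col A) {π : V → ℝ} (hπ0 : ∀ v, 0 ≤ π v)
    (hπ1 : ∑ v, π v = 1) {θ : ℝ} (h0 : 0 ≤ θ) (h1 : θ ≤ 1 / 4) (y y' : V) :
    |R A π θ y y' - 1 - θ * (row A π y - row A π y')| ≤ 4 * θ ^ 2 := by
  have e : R A π θ y y' - 1 - θ * (row A π y - row A π y') =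
      ∑ v, π v * (Real.exp (θ * (A v y - A v y')) - 1 - θ * (A v y - A v y')) := by
    unfold R row
    simp only [mul_sub, Finset.sum_sub_distrib, mul_one, hπ1]
    have e1 : ∀ z, θ * ∑ w, π w * A z w = ∑ v, π v * (θ * A v z) := by
      intro z
      rw [Finset.mul_sum]
      refine Finset.sum_congr rfl fun v _ => ?_
      rw [hA.symm]
      ring
    rw [e1, e1]
  rw [e]
  refine (Finset.abs_sum_le_sum_abs _ _).trans ?_
  calc ∑ v, |π v * (Real.exp (θ * (A v y - A v y')) - 1 - θ * (A v y - A v y'))|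
      ≤ ∑ v, π v * (4 * θ ^ 2) := by
        refine Finset.sum_le_sum fun v _ => ?_
        rw [abs_mul, abs_of_nonneg (hπ0 v)]
        refine mul_le_mul_of_nonneg_left ?_ (hπ0 v)
        have a1 := abs_le.1 (hA.abs_le v y)
        have a2 := abs_le.1 (hA.abs_le v y')
        have hx : |θ * (A v y - A v y')| ≤ 2 * θ := by
          rw [abs_mul, abs_of_nonneg h0, mul_comm]
          refine mul_le_mul_of_nonneg_right ?_ h0
          rw [abs_le]
          constructor <;> linarith [a1.1, a1.2, a2.1, a2.2]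
        have hx1 : |θ * (A v y - A v y')| ≤ 1 := by linarith
        refine (Real.abs_exp_sub_one_sub_id_le hx1).trans ?_
        have := pow_le_pow_left₀ (abs_nonneg _) hx 2
        rw [sq_abs] at this
        linarith
    _ = 4 * θ ^ 2 := by rw [← Finset.sum_mul, hπ1, one_mul]

theorem R_sq {A : V → V → ℝ} (hA : Col A) {π : V → ℝ} (hπ0 : ∀ v, 0 ≤ π v)
    (hπ1 : ∑ v, π v = 1) {θ : ℝ} (h0 : 0 ≤ θ) (h1 : θ ≤ 1 / 4) (y y' : V) :
    (R A π θ y y' - 1) ^ 2 ≤ 4 * θ ^ 2 * (row A π y ^ 2 + row A π y' ^ 2) + 32 * θ ^ 4 := by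
  have h := R_sub hA hπ0 hπ1 h0 h1 y y'
  have h2 := pow_le_pow_left₀ (abs_nonneg _) h 2
  rw [sq_abs] at h2
  nlinarith [sq_nonneg (R A π θ y y' - 1 - 2 * (θ * (row A π y - row A π y'))),
    sq_nonneg (θ * (row A π y + row A π y'))]

theorem inv_R {A : V → V → ℝ} (hA : Col A) {π : V → ℝ} (hπ0 : ∀ v, 0 ≤ π v)
    (hπ1 : ∑ v, π v = 1) {θ : ℝ} (h0 : 0 ≤ θ) (h1 : θ ≤ 1 / 4) (y y' : V) :
    1 / R A π θ y y' ≤ 2 - R A π θ y y' + 2 * (4 * θ ^ 2 * (row A π y ^ 2 + row A π y' ^ 2) +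
      32 * θ ^ 4) := by
  have hge := R_ge hA hπ0 hπ1 h0 h1 y y'
  have hsq := R_sq hA hπ0 hπ1 h0 h1 y y'
  set r := R A π θ y y' with hr
  have hr0 : 0 < r := by linarith
  have e : 1 / r = 2 - r + (r - 1) ^ 2 / r := by
    field_simp
    ring
  rw [e]
  have : (r - 1) ^ 2 / r ≤ 2 * (r - 1) ^ 2 := by
    rw [div_le_iff₀ hr0]
    nlinarith [sq_nonneg (r - 1)]
  linarith

theorem mean_inv {A : V → V → ℝ} (hA : Col A) {p π : V → ℝ} (hp0 : ∀ v, 0 ≤ p v)
    (hp1 : ∑ v, p v = 1) (hπ0 : ∀ v, 0 ≤ π v) (hπ1 : ∑ v, π v = 1) {θ : ℝ} (h0 : 0 ≤ θ)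
    (h1 : θ ≤ 1 / 4) {c₁ c₂ c₃ : ℝ} (hc1 : ∑ v, π v * p v ≤ c₁)
    (hc2 : ∑ v, π v * row A p v ^ 2 ≤ c₂) (hc3 : ∑ v, p v * row A π v ^ 2 ≤ c₃) :
    ∑ y, ∑ y', p y * p y' * (1 / R A π θ y y') ≤
      Real.exp (-(θ ^ 2 * (1 - (c₁ + 2 * c₂ + 16 * c₃ + 64 * θ ^ 2)))) := by
  have hpp : ∑ y, ∑ y', p y * p y' = 1 := by
    rw [← Finset.sum_mul_sum, hp1, one_mul]
  have e1 : ∑ y, ∑ y', p y * p y' * (row A π y ^ 2 + row A π y' ^ 2) =
      2 * ∑ v, p v * row A π v ^ 2 := by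
    have a1 : ∑ y, ∑ y', p y * p y' * row A π y ^ 2 = ∑ v, p v * row A π v ^ 2 := by
      refine Finset.sum_congr rfl fun y _ => ?_
      calc ∑ y', p y * p y' * row A π y ^ 2 = ∑ y', p y' * (p y * row A π y ^ 2) :=
            Finset.sum_congr rfl fun y' _ => by ring
        _ = _ := by rw [← Finset.sum_mul, hp1, one_mul]
    have a2 : ∑ y, ∑ y', p y * p y' * row A π y' ^ 2 = ∑ v, p v * row A π v ^ 2 := by
      rw [Finset.sum_comm, ← a1]
      refine Finset.sum_congr rfl fun y _ => Finset.sum_congr rfl fun y' _ => ?_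
      ring
    simp only [mul_add, Finset.sum_add_distrib]
    rw [a1, a2]
    ring
  have e2 : 1 + θ ^ 2 * (1 - c₁ - 2 * c₂) ≤ ∑ y, ∑ y', p y * p y' * R A π θ y y' := by
    unfold R
    rw [swap_sum]
    calc 1 + θ ^ 2 * (1 - c₁ - 2 * c₂) ≤
          ∑ v, π v * (1 + θ ^ 2 * (1 - p v - 2 * row A p v ^ 2)) := by
          have : ∑ v, π v * (1 + θ ^ 2 * (1 - p v - 2 * row A p v ^ 2)) =
              (∑ v, π v) * (1 + θ ^ 2) - θ ^ 2 * (∑ v, π v * p v) -
                2 * θ ^ 2 * ∑ v, π v * row A p v ^ 2 := by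
            rw [Finset.sum_mul, Finset.mul_sum, Finset.mul_sum, ← Finset.sum_sub_distrib,
              ← Finset.sum_sub_distrib]
            refine Finset.sum_congr rfl fun v _ => ?_
            ring
          rw [this, hπ1]
          nlinarith [sq_nonneg θ]
      _ ≤ _ := Finset.sum_le_sum fun v _ =>
          mul_le_mul_of_nonneg_left (mean_low hA hp0 hp1 h0 h1 v) (hπ0 v)
  have e3 : ∑ y, ∑ y', p y * p y' * (1 / R A π θ y y') ≤
      ∑ y, ∑ y', (2 * (p y * p y') - p y * p y' * R A π θ y y' +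
        8 * θ ^ 2 * (p y * p y' * (row A π y ^ 2 + row A π y' ^ 2)) +
        64 * θ ^ 4 * (p y * p y')) := by
    refine Finset.sum_le_sum fun y _ => Finset.sum_le_sum fun y' _ => ?_
    have h2 : 0 ≤ p y * p y' := mul_nonneg (hp0 y) (hp0 y')
    have := mul_le_mul_of_nonneg_left (inv_R hA hπ0 hπ1 h0 h1 y y') h2
    refine this.trans (le_of_eq ?_)
    ring
  have e4 : ∑ y, ∑ y', (2 * (p y * p y') - p y * p y' * R A π θ y y' +
        8 * θ ^ 2 * (p y * p y' * (row A π y ^ 2 + row A π y' ^ 2)) +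
        64 * θ ^ 4 * (p y * p y')) = 2 - ∑ y, ∑ y', p y * p y' * R A π θ y y' +
        8 * θ ^ 2 * (2 * ∑ v, p v * row A π v ^ 2) + 64 * θ ^ 4 := by
    have lin : ∀ (a c d : ℝ) (f g h : V → V → ℝ), ∑ y, ∑ y', (a * f y y' - g y y' +
        c * h y y' + d * f y y') = a * (∑ y, ∑ y', f y y') - (∑ y, ∑ y', g y y') +
        c * (∑ y, ∑ y', h y y') + d * ∑ y, ∑ y', f y y' := by
      intro a c d f g h
      simp only [Finset.sum_add_distrib, Finset.sum_sub_distrib, Finset.mul_sum]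
    rw [lin 2 (8 * θ ^ 2) (64 * θ ^ 4) (fun y y' => p y * p y')
      (fun y y' => p y * p y' * R A π θ y y')
      (fun y y' => p y * p y' * (row A π y ^ 2 + row A π y' ^ 2)), hpp, e1]
    ring
  have e5 := Real.add_one_le_exp (-(θ ^ 2 * (1 - (c₁ + 2 * c₂ + 16 * c₃ + 64 * θ ^ 2))))
  refine e3.trans (le_trans (le_of_eq e4) (le_trans ?_ e5))
  nlinarith [sq_nonneg θ]

end Pool.Agent.NH
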